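import Mathlib

/-!
# Families of representations over a field of characteristic zero, Tate classes on tensor powers
-/

set_option autoImplicit false

namespace Pool.Agent.R919.GT

open Matrix

section tate

variable {K Γ J : Type} [Field K] [Group Γ] {B : J → Type} [∀ j, Fintype (B j)]
  [∀ j, DecidableEq (B j)] (ρ : ∀ j, Γ →* Matrix (B j) (B j) K) (χ : Γ →* Kˣ)
  {κ : Type} [Fintype κ] [DecidableEq κ] (f : κ → J)

/-- The Tate classes of twist `m` in the tensor product over `x : κ` of the representations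
`ρ (f x)`: the tensors (functions on `∏ B (f x)`) on which the elements of a subgroup of finite
index act by the power `χ ^ m` of the character `χ`. -/
def tateClasses (m : ℤ) : Submodule K ((∀ x, B (f x)) → K) where
  carrier := {c | ∃ Δ : Subgroup Γ, Δ.FiniteIndex ∧ ∀ γ ∈ Δ, ∀ I,
    ∑ I' : ∀ x, B (f x), (∏ x, ρ (f x) γ (I x) (I' x)) * c I' = ((χ γ ^ m : Kˣ) : K) * c I}
  zero_mem' := ⟨⊤, inferInstance, fun γ _ I => by simp⟩
  add_mem' := by
    rintro c d ⟨Δ, hΔ, hc⟩ ⟨Δ', hΔ', hd⟩
    refine ⟨Δ ⊓ Δ', inferInstance, fun γ hγ I => ?_⟩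
    simp only [Pi.add_apply, mul_add, Finset.sum_add_distrib]
    rw [hc γ hγ.1 I, hd γ hγ.2 I]
  smul_mem' := by
    rintro r c ⟨Δ, hΔ, hc⟩
    refine ⟨Δ, hΔ, fun γ hγ I => ?_⟩
    have h : ∀ I', (∏ x, ρ (f x) γ (I x) (I' x)) * (r • c) I' =
        r * ((∏ x, ρ (f x) γ (I x) (I' x)) * c I') := by
      intro I'
      rw [Pi.smul_apply, smul_eq_mul]
      ring
    simp only [h]
    rw [← Finset.mul_sum, hc γ hγ I, Pi.smul_apply, smul_eq_mul]
    ring

/-- The Tate classes of twist `m` in the tensor product of the factors `ρ j` only, that is, over the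
set of all `x` with `f x = j`, as functions which do not depend on the coordinates of the other
factors. -/
def tateClassesOf [DecidableEq J] (j : J) (m : ℤ) : Submodule K ((∀ x, B (f x)) → K) where
  carrier := {c | (∀ I I', (∀ x, f x = j → I x = I' x) → c I = c I') ∧
    ∃ Δ : Subgroup Γ, Δ.FiniteIndex ∧ ∀ γ ∈ Δ, ∀ I,
      ∑ I' : ∀ x, B (f x), (∏ x, (if f x = j then ρ (f x) γ else 1) (I x) (I' x)) * c I' =
        ((χ γ ^ m : Kˣ) : K) * c I}
  zero_mem' := ⟨fun _ _ _ => rfl, ⊤, inferInstance, fun γ _ I => by simp⟩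
  add_mem' := by
    rintro c d ⟨hc0, Δ, hΔ, hc⟩ ⟨hd0, Δ', hΔ', hd⟩
    refine ⟨fun I I' h => ?_, Δ ⊓ Δ', inferInstance, fun γ hγ I => ?_⟩
    · rw [Pi.add_apply, Pi.add_apply, hc0 I I' h, hd0 I I' h]
    · simp only [Pi.add_apply, mul_add, Finset.sum_add_distrib]
      rw [hc γ hγ.1 I, hd γ hγ.2 I]
  smul_mem' := by
    rintro r c ⟨hc0, Δ, hΔ, hc⟩
    refine ⟨fun I I' h => ?_, Δ, hΔ, fun γ hγ I => ?_⟩
    · rw [Pi.smul_apply, Pi.smul_apply, hc0 I I' h]
    · have h : ∀ I', (∏ x, (if f x = j then ρ (f x) γ else 1) (I x) (I' x)) * (r • c) I' =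
          r * ((∏ x, (if f x = j then ρ (f x) γ else 1) (I x) (I' x)) * c I') := by
        intro I'
        rw [Pi.smul_apply, smul_eq_mul]
        ring
      simp only [h]
      rw [← Finset.mul_sum, hc γ hγ I, Pi.smul_apply, smul_eq_mul]
      ring

end tate

section cond

variable {K Γ : Type} [Field K] [Group Γ] {B : Type} [Fintype B] [DecidableEq B]

/-- The properties of the Tate module (or of its dual) of an elliptic curve without complex
multiplication over a finitely generated field, with `χ` the cyclotomic character (or its inverse):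
the dimension is `2`, the determinant is `χ`, no line over the algebraic closure is stable under a
subgroup of finite index, and there is an element no power of which has a double eigenvalue. -/
structure IsEll (χ : Γ →* Kˣ) (ρ : Γ →* Matrix B B K) : Prop where
  dim : Fintype.card B = 2
  det : ∀ γ, (ρ γ).det = χ γ
  irr : ∀ Δ : Subgroup Γ, Δ.FiniteIndex → ∀ v : B → AlgebraicClosure K, v ≠ 0 →
    ∃ γ ∈ Δ, ∀ r : AlgebraicClosure K,
      (ρ γ).map (algebraMap K (AlgebraicClosure K)) *ᵥ v ≠ r • v
  ord : ∃ γ, ∀ n : ℕ, 0 < n → (ρ (γ ^ n)).trace ^ 2 ≠ 4 * (ρ (γ ^ n)).det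

/-- There is no nonzero homomorphism from one of the representations to the other one which
commutes with the elements of a subgroup of finite index. For the Tate modules of elliptic curves
over a finitely generated field this means that the curves are not isogenous over any extension
(Faltings). -/
def NonIso {B' : Type} [Fintype B'] [DecidableEq B'] (ρ : Γ →* Matrix B B K)
    (ρ' : Γ →* Matrix B' B' K) : Prop :=
  ∀ Δ : Subgroup Γ, Δ.FiniteIndex → ∀ T : Matrix B' B K, (∀ γ ∈ Δ, T * ρ γ = ρ' γ * T) → T = 0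

/-- The representation `ρ'` (of dimension two) is linked with `ρ`: over the algebraic closure of
`K` there is a homomorphism of Lie algebras, which commutes with the action of the group, from a
Lie subalgebra of `End ρ`, which is stable under the group, onto the Lie algebra of the
endomorphisms of trace zero of `ρ'`. Its graph is `R`. In particular these endomorphisms of trace
zero are a subquotient of the representation `End ρ`. -/
def Linked {B' : Type} [Fintype B'] [DecidableEq B'] (ρ : Γ →* Matrix B B K)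
    (ρ' : Γ →* Matrix B' B' K) : Prop :=
  ∃ R : Submodule (AlgebraicClosure K)
      (Matrix B B (AlgebraicClosure K) × Matrix B' B' (AlgebraicClosure K)),
    (∀ p ∈ R, ∀ q ∈ R, p * q - q * p ∈ R) ∧
    (∀ γ, ∀ p ∈ R,
      ((ρ γ).map (algebraMap K (AlgebraicClosure K)) * p.1 *
          (ρ γ⁻¹).map (algebraMap K (AlgebraicClosure K)),
        (ρ' γ).map (algebraMap K (AlgebraicClosure K)) * p.2 *
          (ρ' γ⁻¹).map (algebraMap K (AlgebraicClosure K))) ∈ R) ∧
    (∀ p ∈ R, p.1 = 0 → p.2 = 0) ∧
    (∀ p ∈ R, p.2.trace = 0) ∧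
    ∀ y : Matrix B' B' (AlgebraicClosure K), y.trace = 0 → ∃ p ∈ R, p.2 = y

end cond

end Pool.Agent.R919.GT
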