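import Mathlib

/-!
# Logarithms of commuting operators with respect to additive characters of the multiplicative group
-/

set_option linter.unusedSectionVars false
set_option autoImplicit false

namespace Pool.Agent.R919.GT

open Matrix Polynomial Module

section log

variable {C : Type} [Field C]

/-- `θ` is additive on products of nonzero elements. -/
def IsLog (θ : C → C) : Prop := ∀ a b : C, a ≠ 0 → b ≠ 0 → θ (a * b) = θ a + θ b

theorem IsLog.one {θ : C → C} (h : IsLog θ) : θ 1 = 0 := by
  have h1 := h 1 1 one_ne_zero one_ne_zero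
  rw [mul_one] at h1
  simpa using h1

theorem IsLog.pow {θ : C → C} (h : IsLog θ) {a : C} (ha : a ≠ 0) (n : ℕ) :
    θ (a ^ n) = n * θ a := by
  induction n with
  | zero => rw [pow_zero, h.one, Nat.cast_zero, zero_mul]
  | succ n ih =>
    rw [pow_succ, h _ _ (pow_ne_zero n ha) ha, ih]
    push_cast
    ring

theorem IsLog.prod {θ : C → C} (h : IsLog θ) {κ : Type} (s : Finset κ) (f : κ → C)
    (hf : ∀ x ∈ s, f x ≠ 0) : θ (∏ x ∈ s, f x) = ∑ x ∈ s, θ (f x) := by
  classical
  induction s using Finset.induction_on with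
  | empty => rw [Finset.prod_empty, Finset.sum_empty, h.one]
  | insert x s hx ih =>
    rw [Finset.prod_insert hx, Finset.sum_insert hx, h _ _ (hf x (Finset.mem_insert_self x s))
      (Finset.prod_ne_zero_iff.2 fun y hy => hf y (Finset.mem_insert_of_mem hy)),
      ih fun y hy => hf y (Finset.mem_insert_of_mem hy)]

theorem IsLog.inv {θ : C → C} (h : IsLog θ) {a : C} (ha : a ≠ 0) : θ a⁻¹ = -θ a := by
  have h1 := h a a⁻¹ ha (inv_ne_zero ha)
  rw [mul_inv_cancel₀ ha, h.one] at h1
  linear_combination -h1

theorem IsLog.zpow {θ : C → C} (h : IsLog θ) {a : C} (ha : a ≠ 0) (n : ℤ) :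
    θ (a ^ n) = n * θ a := by
  obtain ⟨m, rfl | rfl⟩ := n.eq_nat_or_neg
  · rw [zpow_natCast, h.pow ha]
    push_cast
    ring
  · rw [_root_.zpow_neg, zpow_natCast, h.inv (pow_ne_zero m ha), h.pow ha]
    push_cast
    ring

end log

section common

variable {C : Type} [Field C] [IsAlgClosed C] {W : Type} [AddCommGroup W] [Module C W]
  [FiniteDimensional C W]

/-- Commuting operators have a common eigenvector in every stable subspace. -/
theorem exists_common {κ : Type} [DecidableEq κ] (M : κ → End C W)
    (hM : ∀ x y, M x * M y = M y * M x)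
    (s : Finset κ) : ∀ E : Submodule C W, E ≠ ⊥ → (∀ x, ∀ v ∈ E, M x v ∈ E) →
    ∃ v ∈ E, v ≠ 0 ∧ ∀ x ∈ s, ∃ a : C, M x v = a • v := by
  induction s using Finset.induction_on with
  | empty =>
    intro E hE _
    obtain ⟨v, hv, hv0⟩ := Submodule.exists_mem_ne_zero_of_ne_bot hE
    exact ⟨v, hv, hv0, fun x hx => absurd hx (Finset.notMem_empty x)⟩
  | insert y s hy ih =>
    intro E hE hst
    have : Nontrivial E := Submodule.nontrivial_iff_ne_bot.2 hE
    obtain ⟨a, ha⟩ := Module.End.exists_eigenvalue ((M y).restrict (hst y))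
    obtain ⟨⟨w, hw⟩, hw1⟩ := ha.exists_hasEigenvector
    have hw2 : M y w = a • w := congrArg Subtype.val hw1.apply_eq_smul
    have hw0 : w ≠ 0 := fun h => hw1.2 (Subtype.ext h)
    obtain ⟨v, hv, hv0, hvs⟩ := ih (E ⊓ (M y).eigenspace a)
      (by
        intro h
        apply hw0
        have : w ∈ E ⊓ (M y).eigenspace a := ⟨hw, Module.End.mem_eigenspace_iff.2 hw2⟩
        rw [h] at this
        simpa using this)
      (by
        rintro x u ⟨hu1, hu2⟩
        refine ⟨hst x u hu1, ?_⟩
        rw [SetLike.mem_coe, Module.End.mem_eigenspace_iff] at hu2 ⊢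
        rw [← Module.End.mul_apply, hM y x, Module.End.mul_apply, hu2, map_smul])
    refine ⟨v, hv.1, hv0, fun x hx => ?_⟩
    rcases Finset.mem_insert.1 hx with rfl | hx
    · exact ⟨a, Module.End.mem_eigenspace_iff.1 hv.2⟩
    · exact hvs x hx

end common

section key

variable {C : Type} [Field C] [IsAlgClosed C] [CharZero C] {W : Type} [AddCommGroup W] [Module C W]
  [FiniteDimensional C W]

theorem comm_aeval {R : Type} [Ring R] [Algebra C R] {A B : R} (h : A * B = B * A) (p : C[X]) :
    aeval A p * B = B * aeval A p := by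
  induction p using Polynomial.induction_on with
  | C a =>
    rw [aeval_C]
    exact Algebra.commutes a B
  | add p q hp hq => rw [map_add, add_mul, mul_add, hp, hq]
  | monomial n a hn =>
    have h1 : (Polynomial.C a * X ^ (n + 1) : C[X]) = (Polynomial.C a * X ^ n) * X := by ring
    rw [h1, map_mul, aeval_X, mul_assoc, h, ← mul_assoc, hn, mul_assoc]

theorem isSemisimple_sum {κ : Type} [DecidableEq κ] (s : Finset κ) (D : κ → End C W)
    (hD : ∀ x y, D x * D y = D y * D x) (hss : ∀ x, (D x).IsSemisimple) :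
    (∑ x ∈ s, D x).IsSemisimple := by
  induction s using Finset.induction_on with
  | empty =>
    rw [Finset.sum_empty]
    exact Module.End.isSemisimple_zero
  | insert y s hy ih =>
    rw [Finset.sum_insert hy]
    refine Module.End.IsSemisimple.add_of_commute ?_ (hss y) ih
    exact Commute.sum_right _ _ _ fun x _ => hD y x

theorem pow_apply_eig {T : End C W} {a : C} {v : W} (h : T v = a • v) (n : ℕ) :
    (T ^ n) v = a ^ n • v := by
  induction n with
  | zero => simp
  | succ n ih =>
    rw [pow_succ, Module.End.mul_apply, h, map_smul, ih, smul_smul]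
    congr 1
    ring

/-- **The key lemma.** If a product of commuting operators `M x` acts on `c` by a scalar `χ`, up to
a power, then the sum of the logarithms of the `M x` acts on `c` by the logarithm of `χ`. -/
theorem key {κ : Type} [Fintype κ] [DecidableEq κ] {θ : C → C} (hθ : IsLog θ) (M D : κ → End C W)
    (T : End C W) (hM : ∀ x y, M x * M y = M y * M x)
    (hD : ∀ x, ∃ p : C[X], D x = aeval (M x) p ∧
      ∀ (a : C) (v : W), M x v = a • v → v ≠ 0 → p.eval a = θ a)
    (hss : ∀ x, (D x).IsSemisimple)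
    (hinv : ∀ x (a : C) (v : W), M x v = a • v → v ≠ 0 → a ≠ 0)
    (hTM : ∀ x, T * M x = M x * T)
    (hT : ∀ (l : κ → C) (v : W), (∀ x, M x v = l x • v) → T v = (∏ x, l x) • v)
    {c : W} {χ : C} {N : ℕ} (hN : 0 < N) (hc : (T ^ N) c = χ • c) :
    (∑ x, D x) c = (θ χ / N) • c := by
  classical
  choose p hp hp' using hD
  have hDM : ∀ x y, D x * M y = M y * D x := by
    intro x y
    rw [hp x]
    exact comm_aeval (hM x y) (p x)
  have hDD : ∀ x y, D x * D y = D y * D x := by
    intro x y
    rw [hp y]
    exact (comm_aeval (hDM x y).symm (p y)).symm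
  set S : End C W := ∑ x, D x with hS
  have hSss : S.IsSemisimple := isSemisimple_sum _ D hDD hss
  have hSM : ∀ y, S * M y = M y * S := by
    intro y
    rw [hS, Finset.sum_mul, Finset.mul_sum]
    exact Finset.sum_congr rfl fun x _ => hDM x y
  have hTD : ∀ x, T * D x = D x * T := by
    intro x
    rw [hp x]
    exact (comm_aeval (hTM x).symm (p x)).symm
  have hTS : T * S = S * T := by
    rw [hS, Finset.sum_mul, Finset.mul_sum]
    exact Finset.sum_congr rfl fun x _ => hTD x
  -- the stable subspace
  let W' : Submodule C W := LinearMap.ker (T ^ N - algebraMap C (End C W) χ)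
  have hW' : ∀ v, v ∈ W' ↔ (T ^ N) v = χ • v := by
    intro v
    rw [LinearMap.mem_ker, LinearMap.sub_apply, Module.algebraMap_end_apply, sub_eq_zero]
  have hst : ∀ (L : End C W), T * L = L * T → ∀ v ∈ W', L v ∈ W' := by
    intro L hL v hv
    rw [hW'] at hv ⊢
    have h1 : Commute (T ^ N) L := (show Commute T L from hL).pow_left N
    rw [← Module.End.mul_apply, h1.eq, Module.End.mul_apply, hv, map_smul]
  set S' : End C W' := S.restrict (hst S hTS) with hS'
  have hrss : S'.IsSemisimple := hSss.restrict (p := W') (hst S hTS)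
  have htop := hrss.iSup_eigenspace_eq_top
  have hone : ∀ μ : C, μ ≠ θ χ / N → S'.eigenspace μ = ⊥ := by
    intro μ hμ
    by_contra hne
    obtain ⟨⟨u, hu⟩, hu1, hu0⟩ := Submodule.exists_mem_ne_zero_of_ne_bot hne
    have hu2 : S u = μ • u := congrArg Subtype.val (Module.End.mem_eigenspace_iff.1 hu1)
    have hu0' : u ≠ 0 := fun h => hu0 (Subtype.ext h)
    obtain ⟨v, ⟨hv1, hv2⟩, hv0, hv⟩ := exists_common M hM Finset.univ (W' ⊓ S.eigenspace μ)
      (by
        intro h
        apply hu0'
        have : u ∈ W' ⊓ S.eigenspace μ := ⟨hu, Module.End.mem_eigenspace_iff.2 hu2⟩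
        rw [h] at this
        simpa using this)
      (by
        rintro x v ⟨hv1, hv2⟩
        refine ⟨hst (M x) (hTM x) v hv1, ?_⟩
        rw [SetLike.mem_coe, Module.End.mem_eigenspace_iff] at hv2 ⊢
        rw [← Module.End.mul_apply, hSM x, Module.End.mul_apply, hv2, map_smul])
    choose! l hl using hv
    have hl' : ∀ x, M x v = l x • v := fun x => hl x (Finset.mem_univ x)
    have h1 : (T ^ N) v = (∏ x, l x) ^ N • v := pow_apply_eig (hT l v hl') N
    have h3 : (∏ x, l x) ^ N = χ := by
      have h4 := (hW' v).1 hv1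
      rw [h1] at h4
      exact smul_left_injective C hv0 h4
    have hl0 : ∀ x, l x ≠ 0 := fun x => hinv x (l x) v (hl' x) hv0
    have h5 : S v = (∑ x, θ (l x)) • v := by
      rw [hS, LinearMap.sum_apply, Finset.sum_smul]
      refine Finset.sum_congr rfl fun x _ => ?_
      rw [hp x, ← hp' x (l x) v (hl' x) hv0]
      exact Module.End.aeval_apply_of_hasEigenvector ⟨Module.End.mem_eigenspace_iff.2 (hl' x), hv0⟩
    have h6 : μ = ∑ x, θ (l x) := by
      have h7 := Module.End.mem_eigenspace_iff.1 hv2
      rw [h5] at h7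
      exact (smul_left_injective C hv0 h7).symm
    apply hμ
    have h8 : θ χ = N * ∑ x, θ (l x) := by
      rw [← h3, hθ.pow (Finset.prod_ne_zero_iff.2 fun x _ => hl0 x), hθ.prod _ _ fun x _ => hl0 x]
    rw [h6, h8]
    have hN' : (N : C) ≠ 0 := by exact_mod_cast hN.ne'
    field_simp
  have h9 : S'.eigenspace (θ χ / N) = ⊤ := by
    rw [← htop]
    apply le_antisymm
    · exact le_iSup (fun μ => S'.eigenspace μ) (θ χ / N)
    · refine iSup_le fun μ => ?_
      by_cases hμ : μ = θ χ / N
      · rw [hμ]
      · rw [hone μ hμ]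
        exact bot_le
  have h10 : (⟨c, (hW' c).2 hc⟩ : W') ∈ S'.eigenspace (θ χ / N) := by
    rw [h9]
    exact Submodule.mem_top
  exact congrArg Subtype.val (Module.End.mem_eigenspace_iff.1 h10)

end key

end Pool.Agent.R919.GT
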