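import Mathlib
import Pool.Agent.R919.GT.Rpl

/-!
# The action of tuples of matrices on tensors
-/

set_option linter.unusedSectionVars false
set_option autoImplicit false

namespace Pool.Agent.R919.GT

open Matrix Polynomial Module

section act

variable {F : Type} [Field F] {κ : Type} [Fintype κ] [DecidableEq κ] {A : κ → Type}
  [∀ x, Fintype (A x)] [∀ x, DecidableEq (A x)]

/-- The action of a tuple of matrices on the tensors, which are functions on `∏ A x`. -/
def tact (N : ∀ x, Matrix (A x) (A x) F) : End F ((∀ x, A x) → F) where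
  toFun := fun c I => ∑ I' : ∀ x, A x, (∏ x, N x (I x) (I' x)) * c I'
  map_add' := by
    intro c d
    funext I
    simp only [Pi.add_apply, mul_add, Finset.sum_add_distrib]
  map_smul' := by
    intro r c
    funext I
    simp only [Pi.smul_apply, smul_eq_mul, RingHom.id_apply, Finset.mul_sum]
    exact Finset.sum_congr rfl fun b _ => by ring

theorem tact_apply (N : ∀ x, Matrix (A x) (A x) F) (c : (∀ x, A x) → F) (I : ∀ x, A x) :
    tact N c I = ∑ I' : ∀ x, A x, (∏ x, N x (I x) (I' x)) * c I' := rfl

theorem tact_mul (N N' : ∀ x, Matrix (A x) (A x) F) :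
    tact (fun x => N x * N' x) = tact N * tact N' := by
  refine LinearMap.ext fun c => funext fun I => ?_
  rw [Module.End.mul_apply, tact_apply, tact_apply]
  simp only [tact_apply, Finset.mul_sum, Matrix.mul_apply]
  rw [Finset.sum_comm]
  refine Finset.sum_congr rfl fun I'' _ => ?_
  rw [Finset.prod_univ_sum, Fintype.piFinset_univ, Finset.sum_mul]
  refine Finset.sum_congr rfl fun I' _ => ?_
  rw [Finset.prod_mul_distrib]
  ring

theorem tact_one : tact (fun x => (1 : Matrix (A x) (A x) F)) = 1 := by
  refine LinearMap.ext fun c => funext fun I => ?_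
  rw [tact_apply, Finset.sum_eq_single I]
  · simp
  · intro I' _ hI
    obtain ⟨x, hx⟩ := Function.ne_iff.1 hI
    rw [Finset.prod_eq_zero (Finset.mem_univ x), zero_mul]
    exact Matrix.one_apply_ne (Ne.symm hx)
  · intro h
    exact absurd (Finset.mem_univ I) h

theorem tact_pow (N : ∀ x, Matrix (A x) (A x) F) (n : ℕ) :
    tact (fun x => N x ^ n) = tact N ^ n := by
  induction n with
  | zero =>
    simp only [pow_zero]
    exact tact_one
  | succ n ih =>
    rw [pow_succ, ← ih, ← tact_mul]
    simp only [pow_succ]

/-- The action of a matrix on one factor. -/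
def act1 (x : κ) : Matrix (A x) (A x) F →ₐ[F] End F ((∀ x, A x) → F) :=
  AlgHom.ofLinearMap
    { toFun := fun M =>
        { toFun := fun c I => ∑ b, M (I x) b * c (Function.update I x b)
          map_add' := by
            intro c d
            funext I
            simp only [Pi.add_apply, mul_add, Finset.sum_add_distrib]
          map_smul' := by
            intro r c
            funext I
            simp only [Pi.smul_apply, smul_eq_mul, RingHom.id_apply, Finset.mul_sum]
            exact Finset.sum_congr rfl fun b _ => by ring }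
      map_add' := by
        intro M N
        refine LinearMap.ext fun c => funext fun I => ?_
        simp only [LinearMap.add_apply, Pi.add_apply, LinearMap.coe_mk, AddHom.coe_mk,
          Matrix.add_apply, add_mul, Finset.sum_add_distrib]
      map_smul' := by
        intro r M
        refine LinearMap.ext fun c => funext fun I => ?_
        simp only [LinearMap.smul_apply, Pi.smul_apply, LinearMap.coe_mk, AddHom.coe_mk,
          Matrix.smul_apply, smul_eq_mul, RingHom.id_apply, Finset.mul_sum]
        exact Finset.sum_congr rfl fun b _ => by ring }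
    (by
      refine LinearMap.ext fun c => funext fun I => ?_
      simp only [LinearMap.coe_mk, AddHom.coe_mk, Module.End.one_apply]
      rw [Finset.sum_eq_single (I x)]
      · rw [Matrix.one_apply_eq, one_mul, Function.update_eq_self]
      · intro b _ hb
        rw [Matrix.one_apply_ne (Ne.symm hb), zero_mul]
      · intro h
        exact absurd (Finset.mem_univ _) h)
    (by
      intro M N
      refine LinearMap.ext fun c => funext fun I => ?_
      simp only [LinearMap.coe_mk, AddHom.coe_mk, Module.End.mul_apply, Matrix.mul_apply,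
        Function.update_self, Function.update_idem, Finset.mul_sum, Finset.sum_mul]
      rw [Finset.sum_comm]
      exact Finset.sum_congr rfl fun b _ => Finset.sum_congr rfl fun b' _ => by ring)

theorem act1_apply (x : κ) (M : Matrix (A x) (A x) F) (c : (∀ x, A x) → F) (I : ∀ x, A x) :
    act1 x M c I = ∑ b, M (I x) b * c (Function.update I x b) := rfl

theorem act1_comm {x y : κ} (hxy : x ≠ y) (M : Matrix (A x) (A x) F) (N : Matrix (A y) (A y) F) :
    act1 x M * act1 y N = act1 y N * act1 x M := by
  refine LinearMap.ext fun c => funext fun I => ?_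
  rw [Module.End.mul_apply, Module.End.mul_apply, act1_apply, act1_apply]
  simp only [act1_apply, Finset.mul_sum]
  rw [Finset.sum_comm]
  refine Finset.sum_congr rfl fun b _ => Finset.sum_congr rfl fun b' _ => ?_
  rw [Function.update_of_ne hxy.symm, Function.update_of_ne hxy, Function.update_comm hxy]
  ring

theorem tact_single (x : κ) (M : Matrix (A x) (A x) F) :
    tact (Pi.mulSingle x M) = act1 x M := by
  refine LinearMap.ext fun c => funext fun I => ?_
  rw [tact_apply, act1_apply]
  rw [← Finset.sum_subset (Finset.subset_univ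
    (Finset.univ.image fun b : A x => Function.update I x b))]
  · rw [Finset.sum_image]
    · refine Finset.sum_congr rfl fun b _ => ?_
      rw [Finset.prod_eq_single x]
      · rw [Pi.mulSingle_eq_same, Function.update_self]
      · intro y _ hy
        rw [Pi.mulSingle_eq_of_ne hy, Function.update_of_ne hy, Matrix.one_apply_eq]
      · intro h
        exact absurd (Finset.mem_univ x) h
    · intro b _ b' _ h
      have h1 := congrFun h x
      simpa using h1
  · intro I' _ hI'
    obtain ⟨y, hyx, hy⟩ : ∃ y, y ≠ x ∧ I' y ≠ I y := by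
      by_contra hcon
      push Not at hcon
      apply hI'
      refine Finset.mem_image.2 ⟨I' x, Finset.mem_univ _, funext fun y => ?_⟩
      by_cases h : y = x
      · subst h
        rw [Function.update_self]
      · rw [Function.update_of_ne h, hcon y h]
    rw [Finset.prod_eq_zero (Finset.mem_univ y), zero_mul]
    rw [Pi.mulSingle_eq_of_ne hyx, Matrix.one_apply_ne (Ne.symm hy)]

theorem tact_comm_single (N : ∀ x, Matrix (A x) (A x) F) (x : κ) (M : Matrix (A x) (A x) F)
    (h : N x * M = M * N x) : tact N * act1 x M = act1 x M * tact N := by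
  rw [← tact_single, ← tact_mul, ← tact_mul]
  congr 1
  funext y
  by_cases hy : y = x
  · subst hy
    rw [Pi.mulSingle_eq_same, h]
  · rw [Pi.mulSingle_eq_of_ne hy, mul_one, one_mul]

theorem tact_eig (N : ∀ x, Matrix (A x) (A x) F) (s : Finset κ) (l : κ → F)
    (v : (∀ x, A x) → F) (h : ∀ x ∈ s, act1 x (N x) v = l x • v) :
    tact (fun x => if x ∈ s then N x else 1) v = (∏ x ∈ s, l x) • v := by
  induction s using Finset.induction_on with
  | empty =>
    simp only [Finset.notMem_empty, if_false, Finset.prod_empty, one_smul]
    rw [tact_one]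
    rfl
  | insert y s hy ih =>
    have h1 : (fun x => if x ∈ insert y s then N x else (1 : Matrix (A x) (A x) F)) =
        fun x => (fun x => if x ∈ s then N x else 1) x *
          (Pi.mulSingle y (N y) : ∀ x, Matrix (A x) (A x) F) x := by
      funext x
      by_cases hx : x = y
      · subst hx
        simp [hy]
      · simp [hx]
    rw [h1, tact_mul, tact_single, Module.End.mul_apply, h y (Finset.mem_insert_self y s),
      map_smul, ih fun x hx => h x (Finset.mem_insert_of_mem hx), smul_smul,
      Finset.prod_insert hy]

theorem tact_eig_univ (N : ∀ x, Matrix (A x) (A x) F) (l : κ → F)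
    (v : (∀ x, A x) → F) (h : ∀ x, act1 x (N x) v = l x • v) :
    tact N v = (∏ x, l x) • v := by
  have h1 := tact_eig N Finset.univ l v fun x _ => h x
  simpa using h1

/-- The sum of the actions on the single factors. -/
def act (z : ∀ x, Matrix (A x) (A x) F) : End F ((∀ x, A x) → F) := ∑ x, act1 x (z x)

theorem act_add (z w : ∀ x, Matrix (A x) (A x) F) : act (fun x => z x + w x) = act z + act w := by
  rw [act, act, act, ← Finset.sum_add_distrib]
  exact Finset.sum_congr rfl fun x _ => map_add _ _ _

theorem act_smul (r : F) (z : ∀ x, Matrix (A x) (A x) F) :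
    act (fun x => r • z x) = r • act z := by
  rw [act, act, Finset.smul_sum]
  exact Finset.sum_congr rfl fun x _ => map_smul _ _ _

theorem act_brk (z w : ∀ x, Matrix (A x) (A x) F) :
    act (fun x => z x * w x - w x * z x) = act z * act w - act w * act z := by
  rw [act, act, act, Finset.sum_mul, Finset.sum_mul]
  simp only [Finset.mul_sum]
  rw [Finset.sum_comm (f := fun i j => act1 i (w i) * act1 j (z j)), ← Finset.sum_sub_distrib]
  refine Finset.sum_congr rfl fun x _ => ?_
  rw [← Finset.sum_sub_distrib, Finset.sum_eq_single x]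
  · rw [← map_mul, ← map_mul, ← map_sub]
  · intro y _ hy
    rw [act1_comm hy, sub_self]
  · intro h
    exact absurd (Finset.mem_univ x) h

end act

section rep

variable {F : Type} [Field F] {B : Type} [Fintype B] [DecidableEq B]

/-- `D` is the logarithm of the matrix `A` with respect to `θ`: it is multiplication by `θ a` on the
generalized eigenspace for the eigenvalue `a`. -/
def IsRep (θ : F → F) (A D : Matrix B B F) : Prop :=
  ∃ p : F[X], D = aeval A p ∧
    ∀ a ∈ A.charpoly.roots, (X - Polynomial.C a) ^ (Fintype.card B) ∣ p - Polynomial.C (θ a)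

theorem exists_isRep (θ : F → F) (A : Matrix B B F) : ∃ D, IsRep θ A D := by
  classical
  have h := Ideal.exists_forall_sub_mem_ideal (ι := A.charpoly.roots.toFinset) (R := F[X])
    (I := fun a => Ideal.span {(X - Polynomial.C (a : F)) ^ (Fintype.card B)})
    (by
      intro a b hab
      change IsCoprime (Ideal.span _) (Ideal.span _)
      rw [Ideal.isCoprime_span_singleton_iff]
      refine IsCoprime.pow (pairwise_coprime_X_sub_C (Subtype.val_injective) hab))
    (fun a => Polynomial.C (θ a))
  obtain ⟨p, hp⟩ := h
  refine ⟨aeval A p, p, rfl, fun a ha => ?_⟩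
  exact Ideal.mem_span_singleton.1 (hp ⟨a, Multiset.mem_toFinset.2 ha⟩)

theorem aeval_conj (A : Matrix B B F) {g g' : Matrix B B F} (h1 : g * g' = 1)
    (h2 : g' * g = 1) (r : F[X]) : g * aeval A r * g' = aeval (g * A * g') r := by
  induction r using Polynomial.induction_on with
  | C a => rw [aeval_C, aeval_C, ← Algebra.commutes a g, mul_assoc, h1, mul_one]
  | add p q hp hq => rw [map_add, map_add, mul_add, add_mul, hp, hq]
  | monomial n a hn =>
    have e : (Polynomial.C a * X ^ (n + 1) : F[X]) = (Polynomial.C a * X ^ n) * X := by ring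
    rw [e, map_mul (aeval A) (Polynomial.C a * X ^ n) X,
      map_mul (aeval (g * A * g')) (Polynomial.C a * X ^ n) X, aeval_X, aeval_X, ← hn]
    calc g * (aeval A (Polynomial.C a * X ^ n) * A) * g' =
        g * aeval A (Polynomial.C a * X ^ n) * 1 * A * g' := by noncomm_ring
      _ = g * aeval A (Polynomial.C a * X ^ n) * (g' * g) * A * g' := by rw [h2]
      _ = g * aeval A (Polynomial.C a * X ^ n) * g' * (g * A * g') := by noncomm_ring

theorem IsRep.conj {θ : F → F} {A D : Matrix B B F} (h : IsRep θ A D) {g g' : Matrix B B F}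
    (h1 : g * g' = 1) (h2 : g' * g = 1) : IsRep θ (g * A * g') (g * D * g') := by
  obtain ⟨p, rfl, hp⟩ := h
  have hch : (g * A * g').charpoly = A.charpoly := by
    rw [Matrix.charpoly_mul_comm, ← mul_assoc, h2, one_mul]
  exact ⟨p, aeval_conj A h1 h2 p, fun a ha => hp a (by rwa [hch] at ha)⟩

/-- The value of the polynomial at an eigenvalue. -/
theorem rep_eval {θ : F → F} {A : Matrix B B F} {p : F[X]}
    (hp : ∀ a ∈ A.charpoly.roots, (X - Polynomial.C a) ^ (Fintype.card B) ∣
      p - Polynomial.C (θ a)) {a : F} (ha : a ∈ A.charpoly.roots) : p.eval a = θ a := by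
  have hB : Fintype.card B ≠ 0 := by
    intro h
    have h1 : Multiset.card A.charpoly.roots ≤ 0 :=
      (Polynomial.card_roots' _).trans (by rw [Matrix.charpoly_natDegree_eq_dim, h])
    have h2 := Multiset.card_pos_iff_exists_mem.2 ⟨a, ha⟩
    omega
  have h1 : (X - Polynomial.C a) ∣ p - Polynomial.C (θ a) :=
    (dvd_pow_self _ hB).trans (hp a ha)
  have h2 := Polynomial.dvd_iff_isRoot.1 h1
  rw [IsRoot.def, eval_sub, eval_C, sub_eq_zero] at h2
  exact h2

/-- The logarithm is annihilated by a squarefree polynomial. -/
theorem rep_squarefree [IsAlgClosed F] [CharZero F] {θ : F → F} {A D : Matrix B B F}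
    (h : IsRep θ A D) : ∃ q : F[X], Squarefree q ∧ aeval D q = 0 := by
  classical
  obtain ⟨p, rfl, hp⟩ := h
  set V : Finset F := A.charpoly.roots.toFinset.image θ with hV
  refine ⟨∏ v ∈ V, (X - Polynomial.C v), ?_, ?_⟩
  · rw [← PerfectField.separable_iff_squarefree]
    exact Polynomial.separable_prod_X_sub_C_iff'.2 fun _ _ _ _ h => h
  · rw [← aeval_comp]
    have h1 : A.charpoly ∣ (∏ v ∈ V, (X - Polynomial.C v)).comp p := by
      have hs : A.charpoly = ∏ a ∈ A.charpoly.roots.toFinset,
          (X - Polynomial.C a) ^ A.charpoly.roots.count a := by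
        conv_lhs => rw [(IsAlgClosed.splits A.charpoly).eq_prod_roots_of_monic
          (Matrix.charpoly_monic A)]
        rw [Finset.prod_multiset_map_count]
      rw [hs]
      refine Finset.prod_dvd_of_coprime ?_ ?_
      · intro a _ b _ hab
        exact IsCoprime.pow (pairwise_coprime_X_sub_C Function.injective_id hab)
      · intro a ha
        rw [Polynomial.prod_comp]
        have ha' : a ∈ A.charpoly.roots := Multiset.mem_toFinset.1 ha
        have h2 : (X - Polynomial.C a) ^ A.charpoly.roots.count a ∣ p - Polynomial.C (θ a) := by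
          refine (pow_dvd_pow _ ?_).trans (hp a ha')
          calc A.charpoly.roots.count a ≤ Multiset.card A.charpoly.roots :=
                Multiset.count_le_card _ _
            _ ≤ A.charpoly.natDegree := Polynomial.card_roots' _
            _ = Fintype.card B := Matrix.charpoly_natDegree_eq_dim _
        refine h2.trans ?_
        have h3 : θ a ∈ V := Finset.mem_image_of_mem θ ha
        have h4 := Finset.dvd_prod_of_mem (fun v => (X - Polynomial.C v).comp p) h3
        rwa [sub_comp, X_comp, C_comp] at h4
    obtain ⟨r, hr⟩ := h1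
    rw [hr, map_mul, Matrix.aeval_self_charpoly, zero_mul]

end rep

section apply

variable {F : Type} [Field F] [IsAlgClosed F] [CharZero F] {κ : Type} [Fintype κ] [DecidableEq κ]
  {A : κ → Type} [∀ x, Fintype (A x)] [∀ x, DecidableEq (A x)]

theorem act1_aeval (x : κ) (M : Matrix (A x) (A x) F) (p : F[X]) :
    act1 x (aeval M p) = aeval (act1 x M) p := (Polynomial.aeval_algHom_apply (act1 x) M p).symm

theorem act1_root (x : κ) (M : Matrix (A x) (A x) F) {a : F} {v : (∀ x, A x) → F}
    (h : act1 x M v = a • v) (hv : v ≠ 0) : a ∈ M.charpoly.roots := by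
  rw [mem_roots (Matrix.charpoly_monic M).ne_zero, IsRoot.def]
  have h1 : aeval (act1 x M) M.charpoly v = (M.charpoly.eval a) • v :=
    Module.End.aeval_apply_of_hasEigenvector ⟨Module.End.mem_eigenspace_iff.2 h, hv⟩
  rw [← act1_aeval, Matrix.aeval_self_charpoly, map_zero, LinearMap.zero_apply] at h1
  exact (smul_eq_zero.1 h1.symm).resolve_right hv

/-- **Logarithms act on semi-invariant tensors.** -/
theorem log_act {θ : F → F} (hθ : IsLog θ) (N D : ∀ x, Matrix (A x) (A x) F)
    (hN : ∀ x, (N x).det ≠ 0) (hD : ∀ x, IsRep θ (N x) (D x)) {c : (∀ x, A x) → F} {χ : F}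
    {n : ℕ} (hn : 0 < n) (hc : (tact N ^ n) c = χ • c) : act D c = (θ χ / n) • c := by
  refine key hθ (fun x => act1 x (N x)) (fun x => act1 x (D x)) (tact N) ?_ ?_ ?_ ?_ ?_ ?_ hn hc
  · intro x y
    by_cases h : x = y
    · subst h
      rfl
    · exact act1_comm h _ _
  · intro x
    obtain ⟨p, hp, hp'⟩ := hD x
    refine ⟨p, by rw [hp, act1_aeval], fun a v hv hv0 => ?_⟩
    exact rep_eval hp' (act1_root x _ hv hv0)
  · intro x
    obtain ⟨q, hq, hq'⟩ := rep_squarefree (hD x)
    refine Module.End.isSemisimple_of_squarefree_aeval_eq_zero hq ?_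
    rw [← act1_aeval, hq', map_zero]
  · intro x a v hv hv0 ha
    have h1 := act1_root x _ hv hv0
    rw [mem_roots (Matrix.charpoly_monic _).ne_zero, IsRoot.def, ha] at h1
    apply hN x
    rw [Matrix.det_eq_sign_charpoly_coeff, coeff_zero_eq_eval_zero, h1, mul_zero]
  · intro x
    exact tact_comm_single N x (N x) rfl
  · intro l v hv
    exact tact_eig_univ N l v hv

end apply



end Pool.Agent.R919.GT
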