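import Mathlib
import Pool.Agent.R919.GT.Def
import Pool.Agent.R919.GT.Ten

/-!
# Functions of several groups of variables
-/

set_option linter.unusedSectionVars false
set_option autoImplicit false

namespace Pool.Agent.R919.GT

open Matrix Module

section loc

variable {F : Type} [Field F] {κ : Type} [Fintype κ] [DecidableEq κ] {A : κ → Type}
  [∀ x, Fintype (A x)] [∀ x, DecidableEq (A x)]

theorem tact_insert (N : ∀ x, Matrix (A x) (A x) F) {x : κ} {s : Finset κ} (hx : x ∉ s) :
    tact (fun y => if y ∈ insert x s then N y else 1) =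
      act1 x (N x) * tact (fun y => if y ∈ s then N y else 1) := by
  rw [← tact_single, ← tact_mul]
  congr 1
  funext y
  by_cases hy : y = x
  · subst hy
    simp [hx]
  · simp [hy]

/-- The coordinates in `P` from `a` and the other ones from `b`. -/
def mixP (P : κ → Prop) [DecidablePred P] (a b : ∀ x, A x) : ∀ x, A x :=
  fun x => if P x then a x else b x

theorem mixP_update (P : κ → Prop) [DecidablePred P] (a b : ∀ x, A x) {x : κ} (hx : P x)
    (u : A x) : mixP P (Function.update a x u) b = Function.update (mixP P a b) x u := by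
  funext y
  by_cases h : y = x
  · subst h
    simp [mixP, hx]
  · simp [mixP, Function.update_of_ne h]

theorem loc (P : κ → Prop) [DecidablePred P] (N : ∀ x, Matrix (A x) (A x) F)
    (hN : ∀ x, ¬ P x → N x = 1) (c : (∀ x, A x) → F) (b : ∀ x, A x) :
    tact N (fun a => c (mixP P a b)) = fun a => tact N c (mixP P a b) := by
  have h : ∀ s : Finset κ, (∀ x ∈ s, P x) → ∀ c : (∀ x, A x) → F,
      tact (fun y => if y ∈ s then N y else 1) (fun a => c (mixP P a b)) =
        fun a => tact (fun y => if y ∈ s then N y else 1) c (mixP P a b) := by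
    intro s
    induction s using Finset.induction_on with
    | empty =>
      intro _ c
      simp only [Finset.notMem_empty, if_false]
      rw [tact_one]
      rfl
    | insert x s hx ih =>
      intro hs c
      rw [tact_insert N hx, Module.End.mul_apply, Module.End.mul_apply,
        ih (fun y hy => hs y (Finset.mem_insert_of_mem hy)) c]
      have hPx : P x := hs x (Finset.mem_insert_self x s)
      funext a
      rw [act1_apply, act1_apply]
      refine Finset.sum_congr rfl fun u _ => ?_
      rw [mixP_update P a b hPx]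
      have e : mixP P a b x = a x := if_pos hPx
      rw [e]
  have h1 := h (Finset.univ.filter P) (fun x hx => (Finset.mem_filter.1 hx).2) c
  have h2 : (fun y => if y ∈ Finset.univ.filter P then N y else 1) = N := by
    funext y
    by_cases hy : P y
    · simp [hy]
    · rw [if_neg (by simp [hy]), hN y hy]
  rw [h2] at h1
  exact h1

theorem mixP_not (P : κ → Prop) [DecidablePred P] (a b : ∀ x, A x) :
    mixP (fun x => ¬ P x) b a = mixP P a b := by
  funext x
  by_cases h : P x
  · simp [mixP, h]
  · simp [mixP, h]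

theorem loc' (P : κ → Prop) [DecidablePred P] (N : ∀ x, Matrix (A x) (A x) F)
    (hN : ∀ x, P x → N x = 1) (c : (∀ x, A x) → F) (a : ∀ x, A x) :
    tact N (fun b => c (mixP P a b)) = fun b => tact N c (mixP P a b) := by
  have h := loc (fun x => ¬ P x) N (fun x hx => hN x (not_not.1 hx)) c a
  simp only [mixP_not] at h
  exact h

/-- Change of the field. -/
theorem tact_map {K : Type} [Field K] (φ : K →+* F) (N : ∀ x, Matrix (A x) (A x) K)
    (c : (∀ x, A x) → K) : tact (fun x => (N x).map φ) (fun I => φ (c I)) =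
      fun I => φ (tact N c I) := by
  funext I
  rw [tact_apply, tact_apply, map_sum]
  refine Finset.sum_congr rfl fun I' _ => ?_
  rw [map_mul, map_prod]
  rfl

end loc

section linalg

/-- If a function of two variables is in `H` as a function of the first and in `M` as a function
of the second variable then its restriction to the diagonal is in `M * H`. -/
theorem diag_mem {K : Type} [Field K] {Ω : Type} [Finite Ω] (M H : Submodule K (Ω → K))
    (F : Ω → Ω → K) (h1 : ∀ I, (fun I' => F I' I) ∈ H) (h2 : ∀ I', (fun I => F I' I) ∈ M) :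
    (fun I => F I I) ∈ M * H := by
  classical
  have := Fintype.ofFinite Ω
  obtain ⟨π, hπ⟩ := LinearMap.exists_leftInverse_of_injective H.subtype (Submodule.ker_subtype H)
  let b := Module.finBasis K H
  -- the coordinates
  have h3 : (fun I => F I I) = ∑ k, (fun I => b.repr ⟨_, h1 I⟩ k) * (b k : Ω → K) := by
    funext I
    have h4 := b.sum_repr ⟨_, h1 I⟩
    have h5 := congrFun (congrArg (Subtype.val : H → (Ω → K)) h4) I
    change _ = F I I at h5
    rw [← h5, AddSubmonoidClass.coe_finsetSum, Finset.sum_apply, Finset.sum_apply]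
    exact Finset.sum_congr rfl fun k _ => rfl
  rw [h3]
  refine Submodule.sum_mem _ fun k _ => Submodule.mul_mem_mul ?_ (b k).2
  have h6 : (fun I => b.repr ⟨_, h1 I⟩ k) =
      ∑ I', b.repr (π (Pi.single I' 1)) k • (fun I => F I' I) := by
    funext I
    have h7 : (⟨_, h1 I⟩ : H) = π (fun I' => F I' I) := (LinearMap.congr_fun hπ ⟨_, h1 I⟩).symm
    have h8 : (fun I' => F I' I) = ∑ I', F I' I • (Pi.single I' (1 : K) : Ω → K) := by
      funext J
      rw [Finset.sum_apply, Finset.sum_eq_single J]
      · rw [Pi.smul_apply, Pi.single_eq_same, smul_eq_mul, mul_one]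
      · intro K _ hK
        rw [Pi.smul_apply, Pi.single_eq_of_ne (Ne.symm hK), smul_zero]
      · intro h
        exact absurd (Finset.mem_univ J) h
    rw [h7, h8, map_sum, map_sum, Finsupp.coe_finsetSum, Finset.sum_apply, Finset.sum_apply]
    refine Finset.sum_congr rfl fun I' _ => ?_
    rw [map_smul, map_smul, Finsupp.smul_apply, Pi.smul_apply, smul_eq_mul, smul_eq_mul, mul_comm]
  rw [h6]
  exact Submodule.sum_mem _ fun I' _ => Submodule.smul_mem _ _ (h2 I')

end linalg

section prod

variable {K Γ J : Type} [Field K] [Group Γ] [DecidableEq J] {B : J → Type} [∀ j, Fintype (B j)]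
  [∀ j, DecidableEq (B j)] (ρ : ∀ j, Γ →* Matrix (B j) (B j) K) (χ : Γ →* Kˣ)
  {κ : Type} [Fintype κ] [DecidableEq κ] (f : κ → J)

/-- The action of `γ` on the factors of colour `j`. -/
def gact (j : J) (γ : Γ) : End K ((∀ x, B (f x)) → K) :=
  tact (fun x => if f x = j then ρ (f x) γ else 1)

/-- The condition of a Tate class for the colour `j`. -/
def Cond (j : J) (m : ℤ) (c : (∀ x, B (f x)) → K) : Prop :=
  ∃ Δ : Subgroup Γ, Δ.FiniteIndex ∧ ∀ γ ∈ Δ, gact ρ f j γ c = ((χ γ ^ m : Kˣ) : K) • c

theorem mem_tateClassesOf {j : J} {m : ℤ} {c : (∀ x, B (f x)) → K} :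
    c ∈ tateClassesOf ρ χ f j m ↔ (∀ I I', (∀ x, f x = j → I x = I' x) → c I = c I') ∧
      Cond ρ χ f j m c := by
  constructor
  · rintro ⟨h0, Δ, hΔ, h⟩
    exact ⟨h0, Δ, hΔ, fun γ hγ => funext fun I => h γ hγ I⟩
  · rintro ⟨h0, Δ, hΔ, h⟩
    exact ⟨h0, Δ, hΔ, fun γ hγ I => congrFun (h γ hγ) I⟩

theorem mem_tateClasses {m : ℤ} {c : (∀ x, B (f x)) → K} :
    c ∈ tateClasses ρ χ f m ↔ ∃ Δ : Subgroup Γ, Δ.FiniteIndex ∧ ∀ γ ∈ Δ,
      tact (fun x => ρ (f x) γ) c = ((χ γ ^ m : Kˣ) : K) • c := by
  constructor
  · rintro ⟨Δ, hΔ, h⟩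
    exact ⟨Δ, hΔ, fun γ hγ => funext fun I => h γ hγ I⟩
  · rintro ⟨Δ, hΔ, h⟩
    exact ⟨Δ, hΔ, fun γ hγ I => congrFun (h γ hγ) I⟩

/-- A function which satisfies the conditions for all colours is a sum of products. -/
theorem mem_prod (e : J → ℤ) (W : Finset J) : ∀ c : (∀ x, B (f x)) → K,
    (∀ I I', (∀ x, f x ∈ W → I x = I' x) → c I = c I') → (∀ j ∈ W, Cond ρ χ f j (e j) c) →
    c ∈ ∏ j ∈ W, tateClassesOf ρ χ f j (e j) := by
  induction W using Finset.induction_on with
  | empty =>
    intro c hc _
    rw [Finset.prod_empty]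
    by_cases hne : Nonempty (∀ x, B (f x))
    · obtain ⟨I₀⟩ := hne
      rw [Submodule.mem_one]
      refine ⟨c I₀, funext fun I => ?_⟩
      exact hc I₀ I fun x hx => absurd hx (Finset.notMem_empty _)
    · rw [not_nonempty_iff] at hne
      have h : c = 0 := Subsingleton.elim _ _
      rw [h]
      exact Submodule.zero_mem _
  | insert j W hj ih =>
    intro c hc hcond
    rw [Finset.prod_insert hj, mul_comm]
    have h1 : c = fun I => c (mixP (fun x => f x = j) I I) := by
      funext I
      congr 1
      funext x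
      simp [mixP]
    rw [h1]
    refine diag_mem _ _ (fun I' I => c (mixP (fun x => f x = j) I' I)) (fun I => ?_) (fun I' => ?_)
    · rw [mem_tateClassesOf]
      refine ⟨fun I' I'' h => ?_, ?_⟩
      · refine congrArg c (funext fun x => ?_)
        by_cases hx : f x = j
        · simp [mixP, hx, h x hx]
        · simp [mixP, hx]
      · obtain ⟨Δ, hΔ, h⟩ := hcond j (Finset.mem_insert_self j W)
        refine ⟨Δ, hΔ, fun γ hγ => ?_⟩
        rw [gact, loc (fun x => f x = j) _ (fun x hx => if_neg hx)]
        funext I'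
        have h2 := congrFun (h γ hγ) (mixP (fun x => f x = j) I' I)
        exact h2
    · refine ih _ (fun I I'' h => ?_) (fun t ht => ?_)
      · refine hc _ _ fun x hx => ?_
        by_cases hx' : f x = j
        · simp [mixP, hx']
        · have hx2 : f x ∈ W := (Finset.mem_insert.1 hx).resolve_left hx'
          simp [mixP, hx', h x hx2]
      · obtain ⟨Δ, hΔ, h⟩ := hcond t (Finset.mem_insert_of_mem ht)
        refine ⟨Δ, hΔ, fun γ hγ => ?_⟩
        have hjt : ∀ x, f x = j → f x ≠ t := by
          rintro x hx hx'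
          exact hj (by rw [← hx, hx']; exact ht)
        rw [gact, loc' (fun x => f x = j) _ (fun x hx => if_neg (hjt x hx))]
        funext I
        have h2 := congrFun (h γ hγ) (mixP (fun x => f x = j) I' I)
        exact h2

end prod

end Pool.Agent.R919.GT
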