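import Mathlib
import Pool.Agent.R919.GT.Ten

/-!
# The Lie algebra generated by the logarithms of the elements of a group
-/

set_option linter.unusedSectionVars false
set_option autoImplicit false

namespace Pool.Agent.R919.GT

open Matrix Polynomial Module

theorem exists_log {F : Type} [Field F] [CharZero F] {u : F} (hu : u ≠ 0)
    (h : ∀ n : ℕ, 0 < n → u ^ n ≠ 1) : ∃ θ : F → F, IsLog θ ∧ θ u ≠ 0 := by
  let _ : DivisibleBy F ℤ :=
    { div := fun a n => a / n
      div_zero := by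
        intro a
        simp
      div_cancel := by
        intro n a hn
        have : (n : F) ≠ 0 := by exact_mod_cast hn
        rw [zsmul_eq_mul]
        field_simp }
  let v : Additive Fˣ := Additive.ofMul (Units.mk0 u hu)
  let f : ℤ →+ Additive Fˣ := (zmultiplesHom (Additive Fˣ)) v
  have hf : Function.Injective f := by
    rw [injective_iff_map_eq_zero]
    intro n hn
    have h1 : n • v = 0 := hn
    have h2 : (Units.mk0 u hu) ^ n = 1 := h1
    by_contra hne
    obtain ⟨m, hm | hm⟩ := n.eq_nat_or_neg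
    · have hm0 : 0 < m := by
        rcases Nat.eq_zero_or_pos m with h0 | h0
        · exact absurd (by rw [hm, h0]; rfl) hne
        · exact h0
      apply h m hm0
      rw [hm, zpow_natCast] at h2
      exact congrArg Units.val h2
    · have hm0 : 0 < m := by
        rcases Nat.eq_zero_or_pos m with h0 | h0
        · exact absurd (by rw [hm, h0]; rfl) hne
        · exact h0
      apply h m hm0
      rw [hm, _root_.zpow_neg, zpow_natCast, inv_eq_one] at h2
      exact congrArg Units.val h2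
  obtain ⟨g, hg⟩ := (Module.Baer.of_divisible F).extension_property_addMonoidHom f hf
    (Int.castAddHom F)
  classical
  refine ⟨fun a => if ha : a ≠ 0 then g (Additive.ofMul (Units.mk0 a ha)) else 0, ?_, ?_⟩
  · intro a b ha hb
    have hab : a * b ≠ 0 := mul_ne_zero ha hb
    simp only [ne_eq, dif_pos ha, dif_pos hb, dif_pos hab]
    rw [← map_add]
    congr 1
    rw [← ofMul_mul]
    congr 1
    exact Units.ext rfl
  · simp only [ne_eq, dif_pos hu]
    have h1 := DFunLike.congr_fun hg 1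
    have h2 : f 1 = v := by
      change (1 : ℤ) • v = v
      rw [one_smul]
    rw [AddMonoidHom.comp_apply, h2] at h1
    change ¬ g v = 0
    rw [h1]
    simp

section fam

variable {F : Type} [Field F] {J : Type} {B : J → Type} [∀ j, Fintype (B j)]
  [∀ j, DecidableEq (B j)] {Γ : Type} [Group Γ] (ρ : ∀ j, Γ →* Matrix (B j) (B j) F)

/-- The logarithms of one element of the group. -/
def IsGen (D : ∀ j, Matrix (B j) (B j) F) : Prop :=
  ∃ (γ : Γ) (θ : F → F), IsLog θ ∧ ∀ j, IsRep θ (ρ j γ) (D j)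

/-- The Lie algebra generated by the logarithms. -/
def L : Submodule F (∀ j, Matrix (B j) (B j) F) :=
  sInf {U | (∀ D, IsGen ρ D → D ∈ U) ∧ ∀ x ∈ U, ∀ y ∈ U, x * y - y * x ∈ U}

variable {ρ}

theorem L_le {U : Submodule F (∀ j, Matrix (B j) (B j) F)} (h1 : ∀ D, IsGen ρ D → D ∈ U)
    (h2 : ∀ x ∈ U, ∀ y ∈ U, x * y - y * x ∈ U) : L ρ ≤ U := sInf_le ⟨h1, h2⟩

theorem gen_mem {D : ∀ j, Matrix (B j) (B j) F} (h : IsGen ρ D) : D ∈ L ρ := by
  rw [L, Submodule.mem_sInf]
  rintro U ⟨h1, _⟩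
  exact h1 D h

theorem brk_mem {x y : ∀ j, Matrix (B j) (B j) F} (hx : x ∈ L ρ) (hy : y ∈ L ρ) :
    x * y - y * x ∈ L ρ := by
  rw [L, Submodule.mem_sInf] at *
  rintro U ⟨h1, h2⟩
  exact h2 x (hx U ⟨h1, h2⟩) y (hy U ⟨h1, h2⟩)

theorem ρ_inv (j : J) (γ : Γ) : ρ j γ * ρ j γ⁻¹ = 1 := by rw [← map_mul, mul_inv_cancel, map_one]

theorem ρ_inv' (j : J) (γ : Γ) : ρ j γ⁻¹ * ρ j γ = 1 := by rw [← map_mul, inv_mul_cancel, map_one]

theorem ρ_det (j : J) (γ : Γ) : (ρ j γ).det ≠ 0 := by
  intro h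
  have h1 := congrArg Matrix.det (ρ_inv (ρ := ρ) j γ)
  rw [Matrix.det_mul, h, zero_mul, Matrix.det_one] at h1
  exact zero_ne_one h1

variable (ρ)

/-- Conjugation by an element of the group. -/
def cj (γ : Γ) : (∀ j, Matrix (B j) (B j) F) →ₗ[F] (∀ j, Matrix (B j) (B j) F) where
  toFun := fun x j => ρ j γ * x j * ρ j γ⁻¹
  map_add' := by
    intro x y
    funext j
    simp only [Pi.add_apply, mul_add, add_mul]
  map_smul' := by
    intro r x
    funext j
    simp only [Pi.smul_apply, mul_smul_comm, smul_mul_assoc, RingHom.id_apply]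

theorem cj_apply (γ : Γ) (x : ∀ j, Matrix (B j) (B j) F) (j : J) :
    cj ρ γ x j = ρ j γ * x j * ρ j γ⁻¹ := rfl

theorem cj_brk (γ : Γ) (x y : ∀ j, Matrix (B j) (B j) F) :
    cj ρ γ (x * y - y * x) = cj ρ γ x * cj ρ γ y - cj ρ γ y * cj ρ γ x := by
  funext j
  change ρ j γ * (x j * y j - y j * x j) * ρ j γ⁻¹ =
    (ρ j γ * x j * ρ j γ⁻¹) * (ρ j γ * y j * ρ j γ⁻¹) -
      (ρ j γ * y j * ρ j γ⁻¹) * (ρ j γ * x j * ρ j γ⁻¹)
  have h1 : ∀ a b : Matrix (B j) (B j) F, (ρ j γ * a * ρ j γ⁻¹) * (ρ j γ * b * ρ j γ⁻¹) =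
      ρ j γ * (a * b) * ρ j γ⁻¹ := by
    intro a b
    calc (ρ j γ * a * ρ j γ⁻¹) * (ρ j γ * b * ρ j γ⁻¹) =
        ρ j γ * a * (ρ j γ⁻¹ * ρ j γ) * b * ρ j γ⁻¹ := by noncomm_ring
      _ = ρ j γ * (a * b) * ρ j γ⁻¹ := by
        rw [ρ_inv']
        noncomm_ring
  rw [h1, h1]
  noncomm_ring

variable {ρ}

theorem cj_mem (γ : Γ) {x : ∀ j, Matrix (B j) (B j) F} (hx : x ∈ L ρ) : cj ρ γ x ∈ L ρ := by
  have h : L ρ ≤ (L ρ).comap (cj ρ γ) := by
    refine L_le ?_ ?_
    · rintro D ⟨δ, θ, hθ, hD⟩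
      refine gen_mem ⟨γ * δ * γ⁻¹, θ, hθ, fun j => ?_⟩
      rw [map_mul, map_mul]
      exact (hD j).conj (ρ_inv j γ) (ρ_inv' j γ)
    · intro a ha b hb
      change cj ρ γ (a * b - b * a) ∈ L ρ
      rw [cj_brk]
      exact brk_mem ha hb
  exact h hx

variable (ρ)

/-- The derived algebra. -/
def L' : Submodule F (∀ j, Matrix (B j) (B j) F) :=
  Submodule.span F {z | ∃ x ∈ L ρ, ∃ y ∈ L ρ, z = x * y - y * x}

variable {ρ}

theorem L'_le : L' ρ ≤ L ρ := by
  rw [L', Submodule.span_le]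
  rintro _ ⟨x, hx, y, hy, rfl⟩
  exact brk_mem hx hy

theorem brk_mem' {x y : ∀ j, Matrix (B j) (B j) F} (hx : x ∈ L ρ) (hy : y ∈ L ρ) :
    x * y - y * x ∈ L' ρ := Submodule.subset_span ⟨x, hx, y, hy, rfl⟩

theorem cj_mem' (γ : Γ) {x : ∀ j, Matrix (B j) (B j) F} (hx : x ∈ L' ρ) : cj ρ γ x ∈ L' ρ := by
  have h : L' ρ ≤ (L' ρ).comap (cj ρ γ) := by
    rw [L', Submodule.span_le]
    rintro _ ⟨a, ha, b, hb, rfl⟩
    change cj ρ γ (a * b - b * a) ∈ L' ρ
    rw [cj_brk]
    exact brk_mem' (cj_mem γ ha) (cj_mem γ hb)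
  exact h hx

/-- A bilinear form which is respected up to scalars. -/
theorem form_L [IsAlgClosed F] [CharZero F] {o : J} {Q : Matrix (B o) (B o) F}
    (hQ : ∀ γ, ∃ χ : F, (ρ o γ)ᵀ * Q * ρ o γ = χ • Q) {x : ∀ j, Matrix (B j) (B j) F}
    (hx : x ∈ L ρ) : ∃ s : F, (x o)ᵀ * Q + Q * x o = s • Q := by
  let U : Submodule F (∀ j, Matrix (B j) (B j) F) :=
    { carrier := {x | ∃ s : F, (x o)ᵀ * Q + Q * x o = s • Q}
      zero_mem' := by
        refine ⟨0, ?_⟩
        change ((0 : Matrix (B o) (B o) F))ᵀ * Q + Q * 0 = _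
        rw [transpose_zero, zero_mul, mul_zero, add_zero, zero_smul]
      add_mem' := by
        rintro a b ⟨s, hs⟩ ⟨t, ht⟩
        refine ⟨s + t, ?_⟩
        change (a o + b o)ᵀ * Q + Q * (a o + b o) = _
        rw [add_smul, ← hs, ← ht, transpose_add, add_mul, mul_add]
        abel
      smul_mem' := by
        rintro c a ⟨s, hs⟩
        refine ⟨c * s, ?_⟩
        change (c • a o)ᵀ * Q + Q * (c • a o) = _
        rw [mul_smul, ← hs, transpose_smul, smul_mul_assoc, mul_smul_comm, smul_add] }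
  have h : L ρ ≤ U := by
    refine L_le ?_ ?_
    · rintro D ⟨γ, θ, hθ, hD⟩
      obtain ⟨χ, hχ⟩ := hQ γ
      obtain ⟨p, hp, hp'⟩ := hD o
      -- the form as a tensor
      let c : (Fin 2 → B o) → F := fun I => Q (I 0) (I 1)
      have hrep : ∀ _ : Fin 2, IsRep θ (ρ o γ)ᵀ (D o)ᵀ := by
        intro _
        refine ⟨p, ?_, fun a ha => hp' a (by rwa [Matrix.charpoly_transpose] at ha)⟩
        rw [hp]
        clear hp hp' hD
        induction p using Polynomial.induction_on with
        | C a => rw [aeval_C, aeval_C, Matrix.algebraMap_eq_diagonal, diagonal_transpose]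
        | add p q hp hq => rw [map_add, map_add, transpose_add, hp, hq]
        | monomial n a hn =>
          have e : (Polynomial.C a * X ^ (n + 1) : F[X]) = (Polynomial.C a * X ^ n) * X := by ring
          rw [e, map_mul (aeval (ρ o γ)) (Polynomial.C a * X ^ n) X,
            map_mul (aeval (ρ o γ)ᵀ) (Polynomial.C a * X ^ n) X, aeval_X, aeval_X, transpose_mul,
            hn, comm_aeval rfl]
      have hc : (tact (fun _ : Fin 2 => (ρ o γ)ᵀ) ^ 1) c = χ • c := by
        rw [pow_one]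
        funext I
        rw [tact_apply, Pi.smul_apply]
        have h1 := congrFun (congrFun hχ (I 0)) (I 1)
        rw [Matrix.smul_apply] at h1
        change _ = χ • Q (I 0) (I 1)
        rw [← h1, Matrix.mul_apply]
        simp only [Matrix.mul_apply, Fin.prod_univ_two]
        rw [← (Fin.consEquiv (fun _ : Fin 2 => B o)).sum_comp]
        rw [Fintype.sum_prod_type, Finset.sum_comm]
        simp only [Finset.sum_mul]
        rw [← (Fin.consEquiv (fun _ : Fin 1 => B o)).sum_comp, Fintype.sum_prod_type]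
        refine Finset.sum_congr rfl fun b _ => ?_
        rw [Fintype.sum_unique]
        refine Finset.sum_congr rfl fun a _ => ?_
        change (ρ o γ)ᵀ (I 0) a * (ρ o γ)ᵀ (I 1) b * Q a b = _
        rw [Matrix.transpose_apply (ρ o γ) (I 1) b]
        ring
      have h2 := log_act hθ (fun _ : Fin 2 => (ρ o γ)ᵀ) (fun _ => (D o)ᵀ)
        (fun _ => by rw [det_transpose]; exact ρ_det o γ) hrep Nat.one_pos hc
      refine ⟨θ χ / (1 : ℕ), ?_⟩
      ext a b
      have h3 := congrFun h2 ![a, b]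
      rw [act, LinearMap.sum_apply, Finset.sum_apply, Fin.sum_univ_two, act1_apply, act1_apply,
        Pi.smul_apply] at h3
      rw [Matrix.add_apply, Matrix.smul_apply, Matrix.mul_apply, Matrix.mul_apply]
      have h4 : c ![a, b] = Q a b := rfl
      rw [h4] at h3
      rw [← h3]
      congr 1
      refine Finset.sum_congr rfl fun i _ => ?_
      change Q a i * D o i b = D o i b * Q a i
      ring
    · rintro a ⟨s, hs⟩ b ⟨t, ht⟩
      refine ⟨0, ?_⟩
      change (a o * b o - b o * a o)ᵀ * Q + Q * (a o * b o - b o * a o) = _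
      have ha : (a o)ᵀ * Q = s • Q - Q * a o := by
        rw [← hs]
        abel
      have hb : (b o)ᵀ * Q = t • Q - Q * b o := by
        rw [← ht]
        abel
      have e1 : (b o)ᵀ * (a o)ᵀ * Q = s • (t • Q - Q * b o) - (t • Q - Q * b o) * a o := by
        rw [mul_assoc, ha, mul_sub, mul_smul_comm, hb, ← mul_assoc, hb]
      have e2 : (a o)ᵀ * (b o)ᵀ * Q = t • (s • Q - Q * a o) - (s • Q - Q * a o) * b o := by
        rw [mul_assoc, hb, mul_sub, mul_smul_comm, ha, ← mul_assoc, ha]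
      rw [transpose_sub, transpose_mul, transpose_mul, sub_mul, e1, e2, zero_smul]
      simp only [smul_sub, sub_mul, smul_mul_assoc, mul_sub]
      rw [smul_comm s t Q, ← mul_assoc Q, ← mul_assoc Q]
      abel
  exact h hx

theorem form_L' [IsAlgClosed F] [CharZero F] {o : J} {Q : Matrix (B o) (B o) F}
    (hQ : ∀ γ, ∃ χ : F, (ρ o γ)ᵀ * Q * ρ o γ = χ • Q) {x : ∀ j, Matrix (B j) (B j) F}
    (hx : x ∈ L' ρ) : (x o)ᵀ * Q + Q * x o = 0 := by
  let U : Submodule F (∀ j, Matrix (B j) (B j) F) :=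
    { carrier := {x | (x o)ᵀ * Q + Q * x o = 0}
      zero_mem' := by
        change ((0 : Matrix (B o) (B o) F))ᵀ * Q + Q * 0 = _
        rw [transpose_zero, zero_mul, mul_zero, add_zero]
      add_mem' := by
        intro a b ha hb
        change (a o + b o)ᵀ * Q + Q * (a o + b o) = _
        have ha' : (a o)ᵀ * Q + Q * a o = 0 := ha
        have hb' : (b o)ᵀ * Q + Q * b o = 0 := hb
        rw [transpose_add, add_mul, mul_add]
        calc (a o)ᵀ * Q + (b o)ᵀ * Q + (Q * a o + Q * b o) =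
            ((a o)ᵀ * Q + Q * a o) + ((b o)ᵀ * Q + Q * b o) := by abel
          _ = 0 := by rw [ha', hb', add_zero]
      smul_mem' := by
        intro c a ha
        change (c • a o)ᵀ * Q + Q * (c • a o) = _
        have ha' : (a o)ᵀ * Q + Q * a o = 0 := ha
        rw [transpose_smul, smul_mul_assoc, mul_smul_comm, ← smul_add, ha', smul_zero] }
  have h : L' ρ ≤ U := by
    rw [L', Submodule.span_le]
    rintro _ ⟨a, ha, b, hb, rfl⟩
    obtain ⟨s, hs⟩ := form_L hQ ha
    obtain ⟨t, ht⟩ := form_L hQ hb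
    change (a o * b o - b o * a o)ᵀ * Q + Q * (a o * b o - b o * a o) = _
    have ha : (a o)ᵀ * Q = s • Q - Q * a o := by
      rw [← hs]
      abel
    have hb : (b o)ᵀ * Q = t • Q - Q * b o := by
      rw [← ht]
      abel
    have e1 : (b o)ᵀ * (a o)ᵀ * Q = s • (t • Q - Q * b o) - (t • Q - Q * b o) * a o := by
      rw [mul_assoc, ha, mul_sub, mul_smul_comm, hb, ← mul_assoc, hb]
    have e2 : (a o)ᵀ * (b o)ᵀ * Q = t • (s • Q - Q * a o) - (s • Q - Q * a o) * b o := by
      rw [mul_assoc, hb, mul_sub, mul_smul_comm, ha, ← mul_assoc, ha]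
    rw [transpose_sub, transpose_mul, transpose_mul, sub_mul, e1, e2]
    simp only [smul_sub, sub_mul, smul_mul_assoc, mul_sub]
    rw [smul_comm s t Q, ← mul_assoc Q, ← mul_assoc Q]
    abel
  exact h hx

/-- The Lie algebra acts by scalars on semi-invariant tensors. -/
theorem act_L [IsAlgClosed F] [CharZero F] {κ : Type} [Fintype κ] [DecidableEq κ] (f : κ → J)
    {c : (∀ x, B (f x)) → F}
    (hc : ∀ γ : Γ, ∃ n : ℕ, 0 < n ∧ ∃ χ : F, (tact (fun x => ρ (f x) γ) ^ n) c = χ • c)
    {z : ∀ j, Matrix (B j) (B j) F} (hz : z ∈ L ρ) : ∃ s : F, act (fun x => z (f x)) c = s • c := by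
  let U : Submodule F (∀ j, Matrix (B j) (B j) F) :=
    { carrier := {z | ∃ s : F, act (fun x => z (f x)) c = s • c}
      zero_mem' := by
        refine ⟨0, ?_⟩
        have h := act_smul (0 : F) (fun x => (0 : Matrix (B (f x)) (B (f x)) F))
        simp only [smul_zero] at h
        change act (fun x => (0 : Matrix (B (f x)) (B (f x)) F)) c = _
        rw [h, zero_smul, zero_smul]
        rfl
      add_mem' := by
        rintro a b ⟨s, hs⟩ ⟨t, ht⟩
        refine ⟨s + t, ?_⟩
        change act (fun x => a (f x) + b (f x)) c = _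
        rw [act_add, LinearMap.add_apply, hs, ht, add_smul]
      smul_mem' := by
        rintro r a ⟨s, hs⟩
        refine ⟨r * s, ?_⟩
        change act (fun x => r • a (f x)) c = _
        rw [act_smul, LinearMap.smul_apply, hs, mul_smul] }
  have h : L ρ ≤ U := by
    refine L_le ?_ ?_
    · rintro D ⟨γ, θ, hθ, hD⟩
      obtain ⟨n, hn, χ, hχ⟩ := hc γ
      exact ⟨_, log_act hθ (fun x => ρ (f x) γ) (fun x => D (f x)) (fun x => ρ_det _ γ)
        (fun x => hD (f x)) hn hχ⟩
    · rintro a ⟨s, hs⟩ b ⟨t, ht⟩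
      refine ⟨0, ?_⟩
      change act (fun x => a (f x) * b (f x) - b (f x) * a (f x)) c = _
      rw [act_brk, LinearMap.sub_apply, Module.End.mul_apply, Module.End.mul_apply, hs, ht,
        map_smul, map_smul, hs, ht, smul_comm, sub_self, zero_smul]
  exact h hz

theorem act_L' [IsAlgClosed F] [CharZero F] {κ : Type} [Fintype κ] [DecidableEq κ] (f : κ → J)
    {c : (∀ x, B (f x)) → F}
    (hc : ∀ γ : Γ, ∃ n : ℕ, 0 < n ∧ ∃ χ : F, (tact (fun x => ρ (f x) γ) ^ n) c = χ • c)
    {z : ∀ j, Matrix (B j) (B j) F} (hz : z ∈ L' ρ) : act (fun x => z (f x)) c = 0 := by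
  let U : Submodule F (∀ j, Matrix (B j) (B j) F) :=
    { carrier := {z | act (fun x => z (f x)) c = 0}
      zero_mem' := by
        have h := act_smul (0 : F) (fun x => (0 : Matrix (B (f x)) (B (f x)) F))
        simp only [smul_zero] at h
        change act (fun x => (0 : Matrix (B (f x)) (B (f x)) F)) c = _
        rw [h, zero_smul]
        rfl
      add_mem' := by
        intro a b ha hb
        change act (fun x => a (f x) + b (f x)) c = _
        rw [act_add, LinearMap.add_apply, show act (fun x => a (f x)) c = 0 from ha,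
          show act (fun x => b (f x)) c = 0 from hb, add_zero]
      smul_mem' := by
        intro r a ha
        change act (fun x => r • a (f x)) c = _
        rw [act_smul, LinearMap.smul_apply, show act (fun x => a (f x)) c = 0 from ha,
          smul_zero] }
  have h : L' ρ ≤ U := by
    rw [L', Submodule.span_le]
    rintro _ ⟨a, ha, b, hb, rfl⟩
    obtain ⟨s, hs⟩ := act_L f hc ha
    obtain ⟨t, ht⟩ := act_L f hc hb
    change act (fun x => a (f x) * b (f x) - b (f x) * a (f x)) c = _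
    rw [act_brk, LinearMap.sub_apply, Module.End.mul_apply, Module.End.mul_apply, hs, ht,
      map_smul, map_smul, hs, ht, smul_comm, sub_self]
  exact h hz

end fam

end Pool.Agent.R919.GT
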