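import Mathlib
import Pool.Agent.R919.GT.Lie

/-!
# Two-dimensional representations
-/

set_option linter.unusedSectionVars false
set_option autoImplicit false

namespace Pool.Agent.R919.GT

open Matrix Polynomial Module

section two

variable {F : Type} [Field F] [CharZero F] {B : Type} [Fintype B] [DecidableEq B]

/-- The matrices of trace zero. -/
def sl (F B : Type) [Field F] [Fintype B] [DecidableEq B] : Submodule F (Matrix B B F) :=
  LinearMap.ker (Matrix.traceLinearMap B F F)

theorem mem_sl {x : Matrix B B F} : x ∈ sl F B ↔ trace x = 0 := by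
  rw [sl, LinearMap.mem_ker]
  rfl

theorem brk_sl (x y : Matrix B B F) : x * y - y * x ∈ sl F B := by
  rw [mem_sl, trace_sub, trace_mul_comm, sub_self]

theorem conj_sl {g g' : Matrix B B F} (h : g' * g = 1) {x : Matrix B B F} (hx : x ∈ sl F B) :
    g * x * g' ∈ sl F B := by
  rw [mem_sl] at hx ⊢
  rw [trace_mul_comm, ← mul_assoc, h, one_mul, hx]

theorem ch (hB : Fintype.card B = 2) (x : Matrix B B F) :
    x * x = trace x • x - x.det • (1 : Matrix B B F) := by
  have h := Matrix.aeval_self_charpoly x
  rw [Matrix.charpoly_of_card_eq_two _ hB] at h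
  simp only [map_add, map_sub, map_pow, map_mul, aeval_X, aeval_C] at h
  rw [pow_two, ← Algebra.smul_def, Algebra.algebraMap_eq_smul_one] at h
  rw [eq_sub_iff_add_eq, ← sub_eq_zero]
  rw [← h]
  abel

theorem ch0 (hB : Fintype.card B = 2) {x : Matrix B B F} (hx : x ∈ sl F B) :
    x * x = -x.det • (1 : Matrix B B F) := by
  rw [ch hB, mem_sl.1 hx, zero_smul, zero_sub, neg_smul]

/-- The anticommutator of matrices of trace zero. -/
theorem anti (hB : Fintype.card B = 2) {x y : Matrix B B F} (hx : x ∈ sl F B) (hy : y ∈ sl F B) :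
    x * y + y * x = trace (x * y) • (1 : Matrix B B F) := by
  have h1 := ch0 hB (Submodule.add_mem _ hx hy)
  have h2 := ch0 hB hx
  have h3 := ch0 hB hy
  have h4 : x * y + y * x = (-(x + y).det + x.det + y.det) • (1 : Matrix B B F) := by
    have : x * y + y * x = (x + y) * (x + y) - x * x - y * y := by noncomm_ring
    rw [this, h1, h2, h3, add_smul, add_smul, neg_smul, neg_smul, neg_smul]
    abel
  have h5 : trace (x * y + y * x) = 2 * trace (x * y) := by
    rw [trace_add, trace_mul_comm y x]
    ring
  have h6 : trace ((-(x + y).det + x.det + y.det) • (1 : Matrix B B F)) =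
      2 * (-(x + y).det + x.det + y.det) := by
    rw [trace_smul, trace_one, hB, smul_eq_mul]
    push_cast
    ring
  rw [h4] at h5
  rw [h6] at h5
  have h7 : (-(x + y).det + x.det + y.det) = trace (x * y) :=
    mul_left_cancel₀ two_ne_zero h5
  rw [h4, h7]

theorem mul_eq (hB : Fintype.card B = 2) {x y : Matrix B B F} (hx : x ∈ sl F B)
    (hy : y ∈ sl F B) :
    x * y = (2 : F)⁻¹ • (x * y - y * x) + ((2 : F)⁻¹ * trace (x * y)) • (1 : Matrix B B F) := by
  have h := anti hB hx hy
  rw [mul_smul, ← h, ← smul_add]
  have : x * y - y * x + (x * y + y * x) = (2 : F) • (x * y) := by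
    rw [two_smul]
    abel
  rw [this, smul_smul, inv_mul_cancel₀ two_ne_zero, one_smul]

theorem det_eq (hB : Fintype.card B = 2) {x : Matrix B B F} (hx : x ∈ sl F B) :
    trace (x * x) = -2 * x.det := by
  rw [ch0 hB hx, trace_smul, trace_one, hB, smul_eq_mul]
  push_cast
  ring

/-- The double commutator. -/
theorem dbl (hB : Fintype.card B = 2) {x y : Matrix B B F} (hx : x ∈ sl F B) (hy : y ∈ sl F B) :
    x * (x * y - y * x) - (x * y - y * x) * x = (-4 * x.det) • y - (2 * trace (x * y)) • x := by
  have h1 := ch0 hB hx
  have h2 := anti hB hx hy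
  have h3 : x * y * x = trace (x * y) • x + x.det • y := by
    have : x * y * x = (x * y + y * x) * x - y * (x * x) := by noncomm_ring
    rw [this, h1, h2, smul_mul_assoc, one_mul, mul_smul_comm, mul_one, neg_smul, sub_neg_eq_add]
  have h4 : x * (x * y - y * x) - (x * y - y * x) * x =
      (x * x) * y - (2 : F) • (x * y * x) + y * (x * x) := by
    rw [two_smul]
    noncomm_ring
  rw [h4, h1, h3, smul_mul_assoc, one_mul, mul_smul_comm, mul_one]
  module

theorem exists_two (hB : Fintype.card B = 2) : ∃ a b : B, a ≠ b ∧ ∀ c, c = a ∨ c = b := by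
  rw [← Finset.card_univ, Finset.card_eq_two] at hB
  obtain ⟨a, b, hab, h⟩ := hB
  refine ⟨a, b, hab, fun c => ?_⟩
  have h1 := Finset.mem_univ c
  rw [h] at h1
  simpa using h1

theorem sum_two {a b : B} (hab : a ≠ b) (h : ∀ c, c = a ∨ c = b) {M : Type} [AddCommMonoid M]
    (g : B → M) : ∑ c, g c = g a + g b := by
  have : (Finset.univ : Finset B) = {a, b} := by
    ext c
    simp only [Finset.mem_univ, Finset.mem_insert, Finset.mem_singleton, true_iff]
    exact h c
  rw [this, Finset.sum_pair hab]

/-- A matrix of trace zero which commutes with `x ≠ 0` of trace zero is a multiple of it. -/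
theorem centr (hB : Fintype.card B = 2) {x y : Matrix B B F} (hx : x ∈ sl F B) (hy : y ∈ sl F B)
    (hx0 : x ≠ 0) (h : x * y = y * x) : ∃ r : F, y = r • x := by
  obtain ⟨a, b, hab, hall⟩ := exists_two hB
  have tx : x b b = -x a a := by
    have := mem_sl.1 hx
    rw [trace, sum_two hab hall] at this
    simp only [diag_apply] at this
    linear_combination this
  have ty : y b b = -y a a := by
    have := mem_sl.1 hy
    rw [trace, sum_two hab hall] at this
    simp only [diag_apply] at this
    linear_combination this
  have e1 := congrFun (congrFun h a) a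
  have e2 := congrFun (congrFun h a) b
  have e3 := congrFun (congrFun h b) a
  simp only [Matrix.mul_apply, sum_two hab hall, tx, ty] at e1 e2 e3
  have key : ∀ r : F, y a a = r * x a a → y a b = r * x a b → y b a = r * x b a →
      y = r • x := by
    intro r h1 h2 h3
    ext c d
    rw [Matrix.smul_apply, smul_eq_mul]
    rcases hall c with rfl | rfl <;> rcases hall d with rfl | rfl
    · exact h1
    · exact h2
    · exact h3
    · rw [tx, ty, h1]
      ring
  by_cases h1 : x a a = 0
  · by_cases h2 : x a b = 0
    · have h3 : x b a ≠ 0 := by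
        intro h3
        apply hx0
        ext c d
        rcases hall c with rfl | rfl <;> rcases hall d with rfl | rfl
        · exact h1
        · exact h2
        · exact h3
        · rw [tx, h1]
          simp
      refine ⟨y b a / x b a, key _ ?_ ?_ ?_⟩
      · rw [h1, mul_zero]
        rw [h1] at e3
        have : (2 : F) * x b a * y a a = 0 := by linear_combination e3
        have h4 : (2 : F) * x b a ≠ 0 := mul_ne_zero two_ne_zero h3
        exact (mul_eq_zero.1 this).resolve_left h4
      · rw [h2, mul_zero]
        rw [h2] at e1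
        have : y a b * x b a = 0 := by linear_combination -e1
        exact (mul_eq_zero.1 this).resolve_right h3
      · field_simp
    · refine ⟨y a b / x a b, key _ ?_ ?_ ?_⟩
      · rw [h1, mul_zero]
        rw [h1] at e2
        have : (2 : F) * x a b * y a a = 0 := by linear_combination -e2
        have h4 : (2 : F) * x a b ≠ 0 := mul_ne_zero two_ne_zero h2
        exact (mul_eq_zero.1 this).resolve_left h4
      · field_simp
      · field_simp
        linear_combination e1
  · refine ⟨y a a / x a a, key _ ?_ ?_ ?_⟩
    · field_simp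
    · field_simp
      have : (2 : F) * (y a b * x a a - y a a * x a b) = 0 := by linear_combination e2
      have h4 := (mul_eq_zero.1 this).resolve_left two_ne_zero
      linear_combination h4
    · field_simp
      have : (2 : F) * (y b a * x a a - y a a * x b a) = 0 := by linear_combination -e3
      have h4 := (mul_eq_zero.1 this).resolve_left two_ne_zero
      linear_combination h4

theorem finrank_sl (hB : Fintype.card B = 2) : finrank F (sl F B) = 3 := by
  have h1 := LinearMap.finrank_range_add_finrank_ker (Matrix.traceLinearMap B F F)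
  have h2 : finrank F (LinearMap.range (Matrix.traceLinearMap B F F)) = 1 := by
    have : LinearMap.range (Matrix.traceLinearMap B F F) = ⊤ := by
      rw [LinearMap.range_eq_top]
      intro r
      refine ⟨(r / 2) • (1 : Matrix B B F), ?_⟩
      change trace ((r / 2) • (1 : Matrix B B F)) = r
      rw [trace_smul, trace_one, hB, smul_eq_mul]
      push_cast
      field_simp
    rw [this, finrank_top, finrank_self]
  rw [h2, Module.finrank_matrix, hB, finrank_self] at h1
  change finrank F (LinearMap.ker (Matrix.traceLinearMap B F F)) = 3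
  omega

/-- A nonzero Lie subalgebra of trace zero matrices which is stable under a group without
semi-invariants is everything. -/
theorem stable_eq (hB : Fintype.card B = 2) {G : Set (Matrix B B F →ₗ[F] Matrix B B F)}
    (hG : ∀ g ∈ G, ∀ x y, g (x * y - y * x) = g x * g y - g y * g x)
    (hirr : ∀ s ∈ sl F B, s ≠ 0 → ∃ g ∈ G, ∀ r : F, g s ≠ r • s)
    {h : Submodule F (Matrix B B F)} (h1 : h ≤ sl F B) (h2 : ∀ g ∈ G, ∀ x ∈ h, g x ∈ h)
    (h3 : ∀ x ∈ h, ∀ y ∈ h, x * y - y * x ∈ h) (h4 : h ≠ ⊥) : h = sl F B := by
  obtain ⟨s, hs, hs0⟩ := Submodule.exists_mem_ne_zero_of_ne_bot h4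
  obtain ⟨g, hg, hgs⟩ := hirr s (h1 hs) hs0
  set t := g s with ht
  have hth : t ∈ h := h2 g hg s hs
  set c := s * t - t * s with hc
  have hch : c ∈ h := h3 s hs t hth
  have hc0 : c ≠ 0 := by
    intro hc0
    obtain ⟨r, hr⟩ := centr hB (h1 hs) (h1 hth) hs0 (sub_eq_zero.1 hc0)
    exact hgs r hr
  have hst : LinearIndependent F ![s, t] := by
    rw [LinearIndependent.pair_iff' hs0]
    intro r hr
    exact hgs r hr.symm
  have hfin : ∀ (n : ℕ) (v : Fin n → Matrix B B F), LinearIndependent F v → (∀ i, v i ∈ h) →
      n ≤ finrank F h := by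
    intro n v hv hvh
    have hv' : LinearIndependent F (fun i => (⟨v i, hvh i⟩ : h)) :=
      LinearIndependent.of_comp h.subtype hv
    simpa using hv'.fintype_card_le_finrank
  have hle : finrank F h ≤ 3 := by
    rw [← finrank_sl (F := F) hB]
    exact Submodule.finrank_mono h1
  have hdone : 3 ≤ finrank F h → h = sl F B := by
    intro h5
    exact Submodule.eq_of_le_of_finrank_eq h1 (by rw [finrank_sl hB]; omega)
  by_cases hW : h ≤ Submodule.span F {s, t}
  · exfalso
    -- then the multiples of `c` are stable
    obtain ⟨g', hg', hgc⟩ := hirr c (h1 hch) hc0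
    have hbr : ∀ x ∈ h, ∀ y ∈ h, ∃ r : F, x * y - y * x = r • c := by
      intro x hx y hy
      obtain ⟨a, b, rfl⟩ := Submodule.mem_span_pair.1 (hW hx)
      obtain ⟨a', b', rfl⟩ := Submodule.mem_span_pair.1 (hW hy)
      refine ⟨a * b' - b * a', ?_⟩
      rw [hc]
      simp only [add_mul, mul_add, smul_mul_smul_comm, smul_sub, sub_smul, mul_comm a' a,
        mul_comm b' b, mul_comm a' b, mul_comm b' a]
      abel
    obtain ⟨r, hr⟩ := hbr (g' s) (h2 g' hg' s hs) (g' t) (h2 g' hg' t hth)
    rw [← hG g' hg'] at hr
    exact hgc r hr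
  · apply hdone
    obtain ⟨u, hu, huW⟩ := SetLike.not_le_iff_exists.1 hW
    have h5 : LinearIndependent F (Fin.cons u ![s, t] : Fin 3 → Matrix B B F) := by
      rw [linearIndependent_finCons]
      refine ⟨hst, ?_⟩
      intro h6
      apply huW
      rw [Matrix.range_cons, Matrix.range_cons, Matrix.range_empty, Set.union_empty,
        Set.singleton_union] at h6
      exact h6
    refine hfin 3 _ h5 fun i => ?_
    fin_cases i
    · exact hu
    · exact hs
    · exact hth

end two

end Pool.Agent.R919.GT
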