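import Mathlib
import Pool.Agent.R919.GT.Two

/-!
# Pairs of two-dimensional representations
-/

set_option linter.unusedSectionVars false
set_option autoImplicit false

namespace Pool.Agent.R919.GT

open Matrix Polynomial Module

section fam

variable {F : Type} [Field F] [CharZero F] {J : Type} {B : J → Type} [∀ j, Fintype (B j)]
  [∀ j, DecidableEq (B j)] {Γ : Type} [Group Γ] (ρ : ∀ j, Γ →* Matrix (B j) (B j) F)

/-- There is no stable line in the space of the matrices of trace zero. -/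
def Irr (i : J) : Prop :=
  Fintype.card (B i) = 2 ∧ ∀ s ∈ sl F (B i), s ≠ 0 → ∃ γ, ∀ r : F, ρ i γ * s * ρ i γ⁻¹ ≠ r • s

variable {ρ}

theorem Irr.pair {i : J} (hi : Irr ρ i) {s : Matrix (B i) (B i) F} (hs : s ∈ sl F (B i))
    (hs0 : s ≠ 0) : ∃ γ, s * (ρ i γ * s * ρ i γ⁻¹) - (ρ i γ * s * ρ i γ⁻¹) * s ≠ 0 := by
  obtain ⟨γ, hγ⟩ := hi.2 s hs hs0
  refine ⟨γ, fun h => ?_⟩
  obtain ⟨r, hr⟩ := centr hi.1 hs (conj_sl (ρ_inv' i γ) hs) hs0 (sub_eq_zero.1 h)
  exact hγ r hr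

/-- The components of a stable Lie subalgebra. -/
theorem image_all {i : J} (hi : Irr ρ i) (P : Submodule F (∀ j, Matrix (B j) (B j) F))
    (hsl : ∀ x ∈ P, x i ∈ sl F (B i)) (hcj : ∀ γ, ∀ x ∈ P, cj ρ γ x ∈ P)
    (hbr : ∀ x ∈ P, ∀ y ∈ P, x * y - y * x ∈ P) (hne : ∃ x ∈ P, x i ≠ 0) :
    ∀ y ∈ sl F (B i), ∃ z ∈ P, z i = y := by
  let cl : Γ → (Matrix (B i) (B i) F →ₗ[F] Matrix (B i) (B i) F) := fun γ =>
    { toFun := fun x => ρ i γ * x * ρ i γ⁻¹
      map_add' := by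
        intro x y
        simp only [mul_add, add_mul]
      map_smul' := by
        intro r x
        simp only [mul_smul_comm, smul_mul_assoc, RingHom.id_apply] }
  have h := stable_eq hi.1 (G := Set.range cl)
    (by
      rintro _ ⟨γ, rfl⟩ x y
      change ρ i γ * (x * y - y * x) * ρ i γ⁻¹ =
        (ρ i γ * x * ρ i γ⁻¹) * (ρ i γ * y * ρ i γ⁻¹) -
          (ρ i γ * y * ρ i γ⁻¹) * (ρ i γ * x * ρ i γ⁻¹)
      have h1 : ∀ a b : Matrix (B i) (B i) F, (ρ i γ * a * ρ i γ⁻¹) * (ρ i γ * b * ρ i γ⁻¹) =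
          ρ i γ * (a * b) * ρ i γ⁻¹ := by
        intro a b
        calc (ρ i γ * a * ρ i γ⁻¹) * (ρ i γ * b * ρ i γ⁻¹) =
            ρ i γ * a * (ρ i γ⁻¹ * ρ i γ) * b * ρ i γ⁻¹ := by noncomm_ring
          _ = ρ i γ * (a * b) * ρ i γ⁻¹ := by
            rw [ρ_inv']
            noncomm_ring
      rw [h1, h1]
      noncomm_ring)
    (by
      intro s hs hs0
      obtain ⟨γ, hγ⟩ := hi.2 s hs hs0
      exact ⟨cl γ, ⟨γ, rfl⟩, hγ⟩)
    (h := P.map (LinearMap.proj i))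
    (by
      rintro _ ⟨x, hx, rfl⟩
      exact hsl x hx)
    (by
      rintro _ ⟨γ, rfl⟩ _ ⟨x, hx, rfl⟩
      exact ⟨cj ρ γ x, hcj γ x hx, rfl⟩)
    (by
      rintro _ ⟨x, hx, rfl⟩ _ ⟨y, hy, rfl⟩
      exact ⟨x * y - y * x, hbr x hx y hy, rfl⟩)
    (by
      obtain ⟨x, hx, hx0⟩ := hne
      intro hbot
      apply hx0
      have h1 : x i ∈ P.map (LinearMap.proj i) := ⟨x, hx, rfl⟩
      rw [hbot] at h1
      simpa using h1)
  intro y hy
  rw [← h] at hy
  obtain ⟨z, hz, hzy⟩ := hy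
  exact ⟨z, hz, hzy⟩

theorem L'_sl {i : J} {x : ∀ j, Matrix (B j) (B j) F} (hx : x ∈ L' ρ) : x i ∈ sl F (B i) := by
  have h : L' ρ ≤ (sl F (B i)).comap (LinearMap.proj i) := by
    rw [L', Submodule.span_le]
    rintro _ ⟨a, _, b, _, rfl⟩
    exact brk_sl _ _
  exact h hx

theorem brk_scalar {B : Type} [Fintype B] [DecidableEq B] (a b : Matrix B B F) (q : F) :
    (a - q • 1) * (b - q • 1) - (b - q • 1) * (a - q • 1) = a * b - b * a := by
  obtain ⟨c, hc⟩ : ∃ c : Matrix B B F, c = q • 1 := ⟨_, rfl⟩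
  have h : ∀ x, c * x = x * c := by
    intro x
    rw [hc, smul_mul_assoc, mul_smul_comm, one_mul, mul_one]
  rw [← hc]
  have h1 : (a - c) * (b - c) - (b - c) * (a - c) =
      a * b - b * a + (c * a - a * c) + (b * c - c * b) := by noncomm_ring
  rw [h1, h a, h b, sub_self, sub_self, add_zero, add_zero]

/-- If some logarithm is not scalar then all matrices of trace zero are components of elements of
the derived algebra. -/
theorem full {i : J} (hi : Irr ρ i) (hD : ∃ D, IsGen ρ D ∧ ∀ r : F, D i ≠ r • 1) :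
    ∀ y ∈ sl F (B i), ∃ z ∈ L' ρ, z i = y := by
  refine image_all hi (L' ρ) (fun x hx => L'_sl hx) (fun γ x hx => cj_mem' γ hx)
    (fun x hx y hy => brk_mem' (L'_le hx) (L'_le hy)) ?_
  obtain ⟨D, hD, hDs⟩ := hD
  set s : Matrix (B i) (B i) F := D i - (trace (D i) / 2) • 1 with hs
  have hssl : s ∈ sl F (B i) := by
    rw [mem_sl, hs, trace_sub, trace_smul, trace_one, hi.1, smul_eq_mul]
    push_cast
    field_simp
    ring
  have hs0 : s ≠ 0 := fun h => hDs _ (sub_eq_zero.1 h)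
  obtain ⟨γ, hγ⟩ := hi.pair hssl hs0
  refine ⟨D * cj ρ γ D - cj ρ γ D * D, brk_mem' (gen_mem hD) (cj_mem γ (gen_mem hD)), ?_⟩
  intro h0
  apply hγ
  have h1 : ρ i γ * s * ρ i γ⁻¹ = cj ρ γ D i - (trace (D i) / 2) • 1 := by
    rw [hs, cj_apply, mul_sub, sub_mul, mul_smul_comm, mul_one, smul_mul_assoc, ρ_inv]
  have h2 : D i * cj ρ γ D i - cj ρ γ D i * D i = 0 := h0
  rw [h1, hs]
  have h3 : (D i - (trace (D i) / 2) • 1) * (cj ρ γ D i - (trace (D i) / 2) • 1) -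
      (cj ρ γ D i - (trace (D i) / 2) • 1) * (D i - (trace (D i) / 2) • 1) =
      D i * cj ρ γ D i - cj ρ γ D i * D i := brk_scalar _ _ _
  rw [h3, h2]

/-- Elements which are zero at finitely many indices. -/
theorem conc [DecidableEq J] {i : J} (hi : Irr ρ i)
    (hfull : ∀ y ∈ sl F (B i), ∃ z ∈ L' ρ, z i = y) (T : Finset J)
    (hT : ∀ t ∈ T, ∃ x ∈ L' ρ, x t = 0 ∧ x i ≠ 0) :
    ∀ y ∈ sl F (B i), ∃ z ∈ L' ρ, z i = y ∧ ∀ t ∈ T, z t = 0 := by
  let P : Finset J → Submodule F (∀ j, Matrix (B j) (B j) F) := fun T =>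
    { carrier := {z | z ∈ L' ρ ∧ ∀ t ∈ T, z t = 0}
      zero_mem' := ⟨Submodule.zero_mem _, fun _ _ => rfl⟩
      add_mem' := by
        rintro a b ⟨ha, ha'⟩ ⟨hb, hb'⟩
        exact ⟨Submodule.add_mem _ ha hb, fun t ht => by
          rw [Pi.add_apply, ha' t ht, hb' t ht, add_zero]⟩
      smul_mem' := by
        rintro r a ⟨ha, ha'⟩
        exact ⟨Submodule.smul_mem _ _ ha, fun t ht => by
          rw [Pi.smul_apply, ha' t ht, smul_zero]⟩ }
  have hall : ∀ T : Finset J, (∃ x ∈ P T, x i ≠ 0) → ∀ y ∈ sl F (B i), ∃ z ∈ P T, z i = y := by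
    intro T hne
    refine image_all hi (P T) (fun x hx => L'_sl hx.1) ?_ ?_ hne
    · rintro γ x ⟨hx, hx'⟩
      exact ⟨cj_mem' γ hx, fun t ht => by rw [cj_apply, hx' t ht, mul_zero, zero_mul]⟩
    · rintro x ⟨hx, hx'⟩ y ⟨hy, hy'⟩
      refine ⟨brk_mem' (L'_le hx) (L'_le hy), fun t ht => ?_⟩
      change x t * y t - y t * x t = 0
      rw [hx' t ht, zero_mul, mul_zero, sub_zero]
  have hs : ∃ s ∈ sl F (B i), s ≠ 0 := by
    have : sl F (B i) ≠ ⊥ := by
      intro h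
      have h1 := finrank_sl (F := F) hi.1
      rw [h, finrank_bot] at h1
      exact absurd h1 (by norm_num)
    exact Submodule.exists_mem_ne_zero_of_ne_bot this
  obtain ⟨s, hs, hs0⟩ := hs
  obtain ⟨γ, hγ⟩ := hi.pair hs hs0
  have hne : ∀ T : Finset J, (∀ t ∈ T, ∃ x ∈ L' ρ, x t = 0 ∧ x i ≠ 0) → ∃ x ∈ P T, x i ≠ 0 := by
    intro T
    induction T using Finset.induction_on with
    | empty =>
      intro _
      obtain ⟨z, hz, hzs⟩ := hfull s hs
      exact ⟨z, ⟨hz, fun t ht => absurd ht (Finset.notMem_empty t)⟩, by rw [hzs]; exact hs0⟩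
    | insert t T ht ih =>
      intro hT
      obtain ⟨a, ha, ha'⟩ := hall T (ih fun t ht => hT t (Finset.mem_insert_of_mem ht)) s hs
      obtain ⟨x, hx, hxt, hxi⟩ := hT t (Finset.mem_insert_self t T)
      obtain ⟨b, hb, hb'⟩ := hall {t} ⟨x, ⟨hx, fun u hu => by
        rw [Finset.mem_singleton.1 hu, hxt]⟩, hxi⟩ _ (conj_sl (ρ_inv' i γ) hs)
      refine ⟨a * b - b * a, ⟨brk_mem' (L'_le ha.1) (L'_le hb.1), fun u hu => ?_⟩, ?_⟩
      · change a u * b u - b u * a u = 0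
        rcases Finset.mem_insert.1 hu with rfl | hu
        · rw [hb.2 u (Finset.mem_singleton_self u), zero_mul, mul_zero, sub_zero]
        · rw [ha.2 u hu, zero_mul, mul_zero, sub_zero]
      · change a i * b i - b i * a i ≠ 0
        rw [ha', hb']
        exact hγ
  intro y hy
  obtain ⟨z, hz, hzy⟩ := hall T (hne T hT) y hy
  exact ⟨z, hz.1, hzy, hz.2⟩

end fam

end Pool.Agent.R919.GT
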