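import Mathlib
import Pool.Agent.R919.GT.Prs

/-!
# Dependent pairs of two-dimensional representations are isomorphic up to a sign
-/

set_option linter.unusedSectionVars false
set_option autoImplicit false

namespace Pool.Agent.R919.GT

open Matrix Polynomial Module

section hom

variable {F : Type} [Field F] [CharZero F] {B B' : Type} [Fintype B] [DecidableEq B]
  [Fintype B'] [DecidableEq B']

/-- The part of trace zero. -/
noncomputable def tl (F B : Type) [Field F] [Fintype B] [DecidableEq B] :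
    Matrix B B F →ₗ[F] Matrix B B F :=
  LinearMap.id - (Matrix.traceLinearMap B F F).smulRight ((2 : F)⁻¹ • (1 : Matrix B B F))

theorem tl_apply (x : Matrix B B F) : tl F B x = x - trace x • (2 : F)⁻¹ • (1 : Matrix B B F) := rfl

theorem tl_sl (hB : Fintype.card B = 2) (x : Matrix B B F) : tl F B x ∈ sl F B := by
  rw [mem_sl, tl_apply, trace_sub, trace_smul, trace_smul, trace_one, hB, smul_eq_mul,
    smul_eq_mul]
  push_cast
  rw [inv_mul_cancel₀ two_ne_zero, mul_one, sub_self]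

theorem tl_of_sl {x : Matrix B B F} (hx : x ∈ sl F B) : tl F B x = x := by
  rw [tl_apply, mem_sl.1 hx, zero_smul, sub_zero]

/-- A Lie homomorphism of the Lie algebras of matrices of trace zero which respects the trace form
extends to a homomorphism of algebras. -/
theorem extend_hom (hB : Fintype.card B = 2) (hB' : Fintype.card B' = 2)
    (φ : Matrix B B F →ₗ[F] Matrix B' B' F) (hsl : ∀ x ∈ sl F B, φ x ∈ sl F B')
    (hbr : ∀ x ∈ sl F B, ∀ y ∈ sl F B, φ (x * y - y * x) = φ x * φ y - φ y * φ x)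
    (htr : ∀ x ∈ sl F B, ∀ y ∈ sl F B, trace (φ x * φ y) = trace (x * y)) :
    ∃ ψ : Matrix B B F →ₗ[F] Matrix B' B' F, ψ 1 = 1 ∧ (∀ x ∈ sl F B, ψ x = φ x) ∧
      ∀ x y, ψ (x * y) = ψ x * ψ y := by
  let ψ : Matrix B B F →ₗ[F] Matrix B' B' F := φ ∘ₗ tl F B +
    (Matrix.traceLinearMap B F F).smulRight ((2 : F)⁻¹ • (1 : Matrix B' B' F))
  have hψ : ∀ x, ψ x = φ (tl F B x) + trace x • (2 : F)⁻¹ • (1 : Matrix B' B' F) := fun _ => rfl
  have h1 : ψ 1 = 1 := by
    have h : tl F B 1 = 0 := by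
      rw [tl_apply, trace_one, hB, smul_smul]
      push_cast
      rw [mul_inv_cancel₀ two_ne_zero, one_smul, sub_self]
    rw [hψ, h, map_zero, zero_add, trace_one, hB, smul_smul]
    push_cast
    rw [mul_inv_cancel₀ two_ne_zero, one_smul]
  have h2 : ∀ x ∈ sl F B, ψ x = φ x := by
    intro x hx
    rw [hψ, tl_of_sl hx, mem_sl.1 hx, zero_smul, add_zero]
  have h3 : ∀ x ∈ sl F B, ∀ y ∈ sl F B, ψ (x * y) = ψ x * ψ y := by
    intro x hx y hy
    rw [h2 x hx, h2 y hy, mul_eq hB' (hsl x hx) (hsl y hy), ← hbr x hx y hy, htr x hx y hy]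
    conv_lhs => rw [mul_eq hB hx hy]
    rw [map_add, map_smul, map_smul, h2 _ (brk_sl x y), h1]
  refine ⟨ψ, h1, h2, fun x y => ?_⟩
  have hx : x = tl F B x + (trace x * (2 : F)⁻¹) • (1 : Matrix B B F) := by
    rw [tl_apply, smul_smul]
    abel
  have hy : y = tl F B y + (trace y * (2 : F)⁻¹) • (1 : Matrix B B F) := by
    rw [tl_apply, smul_smul]
    abel
  obtain ⟨a, ha, ha'⟩ : ∃ a ∈ sl F B, ∃ r : F, x = a + r • 1 := ⟨_, tl_sl hB x, _, hx⟩
  obtain ⟨b, hb, hb'⟩ : ∃ a ∈ sl F B, ∃ r : F, y = a + r • 1 := ⟨_, tl_sl hB y, _, hy⟩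
  obtain ⟨r, rfl⟩ := ha'
  obtain ⟨s, rfl⟩ := hb'
  have e : (a + r • (1 : Matrix B B F)) * (b + s • 1) = a * b + s • a + r • b + (r * s) • 1 := by
    simp only [add_mul, mul_add, smul_mul_assoc, mul_smul_comm, one_mul, mul_one, smul_add,
      smul_smul, mul_comm s r]
    abel
  have e' : (ψ a + r • (1 : Matrix B' B' F)) * (ψ b + s • 1) =
      ψ a * ψ b + s • ψ a + r • ψ b + (r * s) • 1 := by
    simp only [add_mul, mul_add, smul_mul_assoc, mul_smul_comm, one_mul, mul_one, smul_add,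
      smul_smul, mul_comm s r]
    abel
  rw [e]
  simp only [map_add, map_smul, h1]
  rw [e', h3 a ha b hb]

/-- A homomorphism of the matrix algebras is given by an intertwiner. -/
theorem exists_intertwiner (hB : Fintype.card B = 2) (hB' : Fintype.card B' = 2)
    (ψ : Matrix B B F →ₗ[F] Matrix B' B' F) (h1 : ψ 1 = 1) (hmul : ∀ x y, ψ (x * y) = ψ x * ψ y) :
    ∃ (T : Matrix B' B F) (T' : Matrix B B' F), T * T' = 1 ∧ T' * T = 1 ∧
      ∀ x, ψ x * T = T * x := by
  have hne : ∃ b : B, ψ (Matrix.single b b 1) ≠ 0 := by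
    by_contra hcon
    push Not at hcon
    have h2 : (1 : Matrix B B F) = ∑ b, Matrix.single b b 1 := by
      ext i j
      by_cases h : i = j
      · subst h
        simp [Matrix.sum_apply, Matrix.single_apply]
      · rw [Matrix.one_apply_ne h, Matrix.sum_apply]
        symm
        refine Finset.sum_eq_zero fun b _ => ?_
        rw [Matrix.single_apply, if_neg]
        rintro ⟨rfl, rfl⟩
        exact h rfl
    have h3 : (1 : Matrix B' B' F) = 0 := by
      rw [← h1, h2, map_sum]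
      exact Finset.sum_eq_zero fun b _ => hcon b
    have h4 : trace (1 : Matrix B' B' F) = 0 := by rw [h3, trace_zero]
    rw [trace_one, hB'] at h4
    exact two_ne_zero h4
  obtain ⟨b₀, hb₀⟩ := hne
  obtain ⟨w, hw⟩ : ∃ w : B' → F, ψ (Matrix.single b₀ b₀ 1) *ᵥ w ≠ 0 := by
    by_contra hcon
    push Not at hcon
    apply hb₀
    ext i j
    have h2 := congrFun (hcon (Pi.single j 1)) i
    rw [Matrix.mulVec_single_one] at h2
    simpa using h2
  -- the intertwiner
  let T : Matrix B' B F := Matrix.of fun a b => (ψ (Matrix.single b b₀ 1) *ᵥ w) a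
  have hT : ∀ v : B → F, T *ᵥ v = ψ (∑ b, v b • Matrix.single b b₀ 1) *ᵥ w := by
    intro v
    funext a
    rw [map_sum, Matrix.sum_mulVec, Finset.sum_apply]
    simp only [map_smul, Matrix.smul_mulVec, Pi.smul_apply, smul_eq_mul]
    rw [Matrix.mulVec, dotProduct]
    exact Finset.sum_congr rfl fun b _ => by rw [mul_comm]; rfl
  have hsum : ∀ v : B → F, ∑ b, v b • Matrix.single b b₀ (1 : F) =
      Matrix.vecMulVec v (Pi.single b₀ 1) := by
    intro v
    ext i j
    rw [Matrix.sum_apply, Matrix.vecMulVec_apply, Finset.sum_eq_single i]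
    · by_cases h : j = b₀
      · subst h
        simp
      · simp [h, Ne.symm h]
    · intro b _ hb
      simp [hb]
    · intro h
      exact absurd (Finset.mem_univ i) h
  have hint : ∀ x, ψ x * T = T * x := by
    intro x
    have h2 : ∀ v : B → F, (ψ x * T) *ᵥ v = (T * x) *ᵥ v := by
      intro v
      rw [← Matrix.mulVec_mulVec, ← Matrix.mulVec_mulVec, hT, hT, Matrix.mulVec_mulVec, ← hmul]
      rw [hsum, hsum, Matrix.mul_vecMulVec]
    ext i j
    have h3 := congrFun (h2 (Pi.single j 1)) i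
    rw [Matrix.mulVec_single_one, Matrix.mulVec_single_one] at h3
    simpa using h3
  have hT0 : T *ᵥ (Pi.single b₀ 1) ≠ 0 := by
    rw [hT, Finset.sum_eq_single b₀]
    · rw [Pi.single_eq_same, one_smul]
      exact hw
    · intro b _ hb
      rw [Pi.single_eq_of_ne hb, zero_smul]
    · intro h
      exact absurd (Finset.mem_univ _) h
  -- it is injective
  have hinj : Function.Injective T.mulVecLin := by
    rw [injective_iff_map_eq_zero]
    intro v hv
    by_contra hv0
    obtain ⟨b, hb⟩ := Function.ne_iff.1 hv0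
    apply hT0
    have h2 : Pi.single b₀ (1 : F) = Matrix.single b₀ b (v b)⁻¹ *ᵥ v := by
      funext c
      rw [Matrix.single_mulVec]
      rw [Function.update_apply]
      by_cases hc : c = b₀
      · subst hc
        rw [Pi.single_eq_same, if_pos rfl, inv_mul_cancel₀ hb]
      · rw [Pi.single_eq_of_ne hc, if_neg hc]
        rfl
    have hv' : T *ᵥ v = 0 := hv
    rw [h2, Matrix.mulVec_mulVec, ← hint, ← Matrix.mulVec_mulVec, hv', Matrix.mulVec_zero]
  have hcard : finrank F (B → F) = finrank F (B' → F) := by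
    rw [Module.finrank_fintype_fun_eq_card, Module.finrank_fintype_fun_eq_card, hB, hB']
  let e : (B → F) ≃ₗ[F] (B' → F) := LinearEquiv.ofInjectiveOfFinrankEq T.mulVecLin hinj hcard
  have he : ∀ v, e v = T *ᵥ v := fun v => rfl
  let T' : Matrix B B' F := LinearMap.toMatrix' (e.symm : (B' → F) →ₗ[F] (B → F))
  have hT' : ∀ u, T' *ᵥ u = e.symm u := by
    intro u
    exact LinearMap.toMatrix'_mulVec _ _
  refine ⟨T, T', ?_, ?_, hint⟩
  · have h2 : ∀ u : B' → F, (T * T') *ᵥ u = (1 : Matrix B' B' F) *ᵥ u := by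
      intro u
      rw [← Matrix.mulVec_mulVec, hT', ← he, LinearEquiv.apply_symm_apply, Matrix.one_mulVec]
    exact Matrix.ext_of_mulVec_single fun j => h2 _
  · have h2 : ∀ u : B → F, (T' * T) *ᵥ u = (1 : Matrix B B F) *ᵥ u := by
      intro u
      rw [← Matrix.mulVec_mulVec, hT', ← he, LinearEquiv.symm_apply_apply, Matrix.one_mulVec]
    exact Matrix.ext_of_mulVec_single fun j => h2 _

end hom

section fam

variable {F : Type} [Field F] [CharZero F] {J : Type} {B : J → Type} [∀ j, Fintype (B j)]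
  [∀ j, DecidableEq (B j)] {Γ : Type} [Group Γ] {ρ : ∀ j, Γ →* Matrix (B j) (B j) F}

/-- If the Lie algebras of two representations are dependent then the representations are
isomorphic up to signs. -/
theorem pair {i j : J} (hi : Irr ρ i) (hj : Irr ρ j)
    (fi : ∀ y ∈ sl F (B i), ∃ z ∈ L' ρ, z i = y) (fj : ∀ y ∈ sl F (B j), ∃ z ∈ L' ρ, z j = y)
    (hdet : ∀ γ, (ρ i γ).det = (ρ j γ).det)
    (hn : ∀ T : Matrix (B i) (B j) F, T ≠ 0 → ∃ γ, T * ρ j γ ≠ ρ i γ * T ∧
      T * ρ j γ ≠ -(ρ i γ * T)) :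
    ∃ x ∈ L' ρ, x j = 0 ∧ x i ≠ 0 := by
  by_contra hcon
  push Not at hcon
  -- the linear map
  let πj : L' ρ →ₗ[F] sl F (B j) := LinearMap.codRestrict (sl F (B j))
    ((LinearMap.proj j : (∀ j, Matrix (B j) (B j) F) →ₗ[F] _) ∘ₗ (L' ρ).subtype)
    (fun z => L'_sl z.2)
  have hπj : LinearMap.range πj = ⊤ := by
    rw [LinearMap.range_eq_top]
    rintro ⟨y, hy⟩
    obtain ⟨z, hz, hzy⟩ := fj y hy
    exact ⟨⟨z, hz⟩, Subtype.ext hzy⟩
  obtain ⟨σ, hσ⟩ := πj.exists_rightInverse_of_surjective hπj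
  have hσ' : ∀ y : sl F (B j), (σ y : ∀ j, Matrix (B j) (B j) F) j = y := by
    intro y
    have h := LinearMap.congr_fun hσ y
    exact congrArg Subtype.val h
  let φ₀ : sl F (B j) →ₗ[F] Matrix (B i) (B i) F :=
    (LinearMap.proj i : (∀ j, Matrix (B j) (B j) F) →ₗ[F] _) ∘ₗ (L' ρ).subtype ∘ₗ σ
  have hA : ∀ (z : ∀ j, Matrix (B j) (B j) F) (hz : z ∈ L' ρ), φ₀ ⟨z j, L'_sl hz⟩ = z i := by
    intro z hz
    have h1 : (σ ⟨z j, L'_sl hz⟩ : ∀ j, Matrix (B j) (B j) F) - z ∈ L' ρ :=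
      Submodule.sub_mem _ (σ _).2 hz
    have h2 := hcon _ h1 (by
      change (σ ⟨z j, L'_sl hz⟩ : ∀ j, Matrix (B j) (B j) F) j - z j = 0
      rw [hσ', sub_self])
    exact sub_eq_zero.1 h2
  obtain ⟨φ, hφ⟩ := LinearMap.exists_extend φ₀
  have hB : ∀ (z : ∀ j, Matrix (B j) (B j) F), z ∈ L' ρ → φ (z j) = z i := by
    intro z hz
    have h := LinearMap.congr_fun hφ ⟨z j, L'_sl hz⟩
    rw [hA z hz] at h
    exact h
  have hsl : ∀ x ∈ sl F (B j), φ x ∈ sl F (B i) := by
    intro x hx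
    obtain ⟨z, hz, rfl⟩ := fj x hx
    rw [hB z hz]
    exact L'_sl hz
  have hbr : ∀ x ∈ sl F (B j), ∀ y ∈ sl F (B j), φ (x * y - y * x) = φ x * φ y - φ y * φ x := by
    intro x hx y hy
    obtain ⟨z, hz, rfl⟩ := fj x hx
    obtain ⟨w, hw, rfl⟩ := fj y hy
    rw [hB z hz, hB w hw]
    exact hB (z * w - w * z) (brk_mem' (L'_le hz) (L'_le hw))
  have hcj : ∀ γ, ∀ x ∈ sl F (B j), φ (ρ j γ * x * ρ j γ⁻¹) = ρ i γ * φ x * ρ i γ⁻¹ := by
    intro γ x hx
    obtain ⟨z, hz, rfl⟩ := fj x hx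
    rw [hB z hz]
    exact hB (cj ρ γ z) (cj_mem' γ hz)
  -- injectivity
  have hinj : ∀ x ∈ sl F (B j), φ x = 0 → x = 0 := by
    let φ₁ : sl F (B j) →ₗ[F] sl F (B i) := LinearMap.codRestrict (sl F (B i))
      (φ ∘ₗ (sl F (B j)).subtype) (fun x => hsl x.1 x.2)
    have hsurj : Function.Surjective φ₁ := by
      rintro ⟨y, hy⟩
      obtain ⟨z, hz, hzy⟩ := fi y hy
      exact ⟨⟨z j, L'_sl hz⟩, Subtype.ext ((hB z hz).trans hzy)⟩
    have hinj : Function.Injective φ₁ := by
      rw [LinearMap.injective_iff_surjective_of_finrank_eq_finrank]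
      · exact hsurj
      · rw [finrank_sl hj.1, finrank_sl hi.1]
    intro x hx h0
    have h1 : φ₁ ⟨x, hx⟩ = φ₁ 0 := by
      rw [map_zero]
      exact Subtype.ext h0
    exact congrArg Subtype.val (hinj h1)
  -- the trace form
  have hind : ∀ x ∈ sl F (B j), x ≠ 0 → ∀ y ∈ sl F (B j), (∀ r : F, y ≠ r • x) →
      (φ x).det = x.det ∧ trace (φ x * φ y) = trace (x * y) := by
    intro x hx hx0 y hy hxy
    have h1 := congrArg φ (dbl hj.1 hx hy)
    rw [hbr x hx _ (brk_sl x y), hbr x hx y hy, dbl hi.1 (hsl x hx) (hsl y hy), map_sub, map_smul,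
      map_smul] at h1
    have h2 : (4 * x.det - 4 * (φ x).det) • φ y + (2 * trace (x * y) - 2 * trace (φ x * φ y)) • φ x
        = 0 := by
      have e : (4 * x.det - 4 * (φ x).det) • φ y +
          (2 * trace (x * y) - 2 * trace (φ x * φ y)) • φ x =
          ((-4 * (φ x).det) • φ y - (2 * trace (φ x * φ y)) • φ x) -
            ((-4 * x.det) • φ y - (2 * trace (x * y)) • φ x) := by
        module
      rw [e, h1, sub_self]
    have hφx : φ x ≠ 0 := fun h => hx0 (hinj x hx h)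
    have hli : LinearIndependent F ![φ x, φ y] := by
      rw [LinearIndependent.pair_iff' hφx]
      intro r hr
      apply hxy r
      have h3 : φ (y - r • x) = 0 := by rw [map_sub, map_smul, hr, sub_self]
      exact sub_eq_zero.1 (hinj _ (Submodule.sub_mem _ hy (Submodule.smul_mem _ r hx)) h3)
    have h3 := LinearIndependent.pair_iff.1 hli (2 * trace (x * y) - 2 * trace (φ x * φ y))
      (4 * x.det - 4 * (φ x).det) (by rw [add_comm]; exact h2)
    constructor
    · have h4 : (4 : F) * (x.det - (φ x).det) = 0 := by linear_combination h3.2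
      have h5 := (mul_eq_zero.1 h4).resolve_left (by norm_num)
      exact (sub_eq_zero.1 h5).symm
    · have h4 : (2 : F) * (trace (x * y) - trace (φ x * φ y)) = 0 := by linear_combination h3.1
      have h5 := (mul_eq_zero.1 h4).resolve_left (by norm_num)
      exact (sub_eq_zero.1 h5).symm
  have htr : ∀ x ∈ sl F (B j), ∀ y ∈ sl F (B j), trace (φ x * φ y) = trace (x * y) := by
    intro x hx y hy
    by_cases hx0 : x = 0
    · rw [hx0, map_zero, zero_mul, zero_mul, trace_zero, trace_zero]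
    · by_cases hxy : ∃ r : F, y = r • x
      · obtain ⟨r, rfl⟩ := hxy
        obtain ⟨γ, hγ⟩ := hj.2 x hx hx0
        have h1 := (hind x hx hx0 _ (conj_sl (ρ_inv' j γ) hx) hγ).1
        rw [map_smul, mul_smul_comm, mul_smul_comm, trace_smul, trace_smul, det_eq hj.1 hx,
          det_eq hi.1 (hsl x hx), h1]
      · push Not at hxy
        exact (hind x hx hx0 y hy hxy).2
  obtain ⟨ψ, hψ1, hψφ, hψ⟩ := extend_hom hj.1 hi.1 φ hsl hbr htr
  obtain ⟨T, T', hTT', hT'T, hT⟩ := exists_intertwiner hj.1 hi.1 ψ hψ1 hψ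
  have hψcj : ∀ γ x, ψ (ρ j γ * x * ρ j γ⁻¹) = ρ i γ * ψ x * ρ i γ⁻¹ := by
    intro γ x
    have hx : x = tl F (B j) x + (trace x * (2 : F)⁻¹) • (1 : Matrix (B j) (B j) F) := by
      rw [tl_apply, smul_smul]
      abel
    have hsl' := tl_sl (F := F) hj.1 x
    generalize tl F (B j) x = a at hx hsl'
    rw [hx, mul_add, add_mul, map_add, mul_smul_comm, smul_mul_assoc, mul_one, ρ_inv, map_smul,
      hψ1, map_add, map_smul, hψ1, hψφ _ (conj_sl (ρ_inv' j γ) hsl'), hψφ _ hsl', hcj γ a hsl',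
      mul_add, add_mul, mul_smul_comm, smul_mul_assoc, mul_one, ρ_inv]
  have hT0 : T ≠ 0 := by
    intro h
    rw [h, Matrix.zero_mul] at hTT'
    have h4 : trace (1 : Matrix (B i) (B i) F) = 0 := by rw [← hTT', trace_zero]
    rw [trace_one, hi.1] at h4
    exact two_ne_zero h4
  obtain ⟨γ, hγ1, hγ2⟩ := hn T hT0
  -- the intertwiner moved by `γ`
  set M := ρ i γ⁻¹ * T * ρ j γ with hM
  have hMx : ∀ x, ψ x * M = M * x := by
    intro x
    have h1 := hT (ρ j γ * x * ρ j γ⁻¹)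
    rw [hψcj] at h1
    calc ψ x * M = ρ i γ⁻¹ * (ρ i γ * ψ x * ρ i γ⁻¹ * T) * ρ j γ := by
          rw [hM]
          have : ρ i γ⁻¹ * (ρ i γ * ψ x * ρ i γ⁻¹ * T) * ρ j γ =
              (ρ i γ⁻¹ * ρ i γ) * ψ x * (ρ i γ⁻¹ * T * ρ j γ) := by
            simp only [Matrix.mul_assoc]
          rw [this, ρ_inv', Matrix.one_mul]
      _ = M * x := by
          rw [h1, hM]
          have : ρ i γ⁻¹ * (T * (ρ j γ * x * ρ j γ⁻¹)) * ρ j γ =
              ρ i γ⁻¹ * T * ρ j γ * x * (ρ j γ⁻¹ * ρ j γ) := by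
            simp only [Matrix.mul_assoc]
          rw [this, ρ_inv', Matrix.mul_one]
  have hN : ∀ x, (T' * M) * x = x * (T' * M) := by
    intro x
    have h2 : T' * ψ x = x * T' := by
      calc T' * ψ x = T' * (ψ x * T) * T' := by
            rw [Matrix.mul_assoc, Matrix.mul_assoc, hTT', Matrix.mul_one]
        _ = x * T' := by rw [hT, ← Matrix.mul_assoc, hT'T, Matrix.one_mul]
    rw [Matrix.mul_assoc, ← hMx, ← Matrix.mul_assoc, h2, Matrix.mul_assoc]
  obtain ⟨r, hr⟩ : ∃ r : F, T' * M = r • 1 := by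
    refine ⟨trace (T' * M) * (2 : F)⁻¹, ?_⟩
    by_contra hne
    have h3 : tl F (B j) (T' * M) ≠ 0 := by
      intro h
      apply hne
      rw [tl_apply, smul_smul] at h
      exact sub_eq_zero.1 h
    obtain ⟨δ, hδ⟩ := hj.2 _ (tl_sl hj.1 (T' * M)) h3
    apply hδ 1
    rw [one_smul]
    have h4 : tl F (B j) (T' * M) * ρ j δ = ρ j δ * tl F (B j) (T' * M) := by
      rw [tl_apply, sub_mul, mul_sub, hN, smul_smul, smul_mul_assoc, mul_smul_comm, one_mul,
        mul_one]
    rw [← h4, mul_assoc, ρ_inv, mul_one]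
  have hMT : M = r • T := by
    calc M = (T * T') * M := by rw [hTT', Matrix.one_mul]
      _ = r • T := by rw [Matrix.mul_assoc, hr, Matrix.mul_smul, Matrix.mul_one]
  have hfin : T * ρ j γ = r • (ρ i γ * T) := by
    calc T * ρ j γ = (ρ i γ * ρ i γ⁻¹) * (T * ρ j γ) := by rw [ρ_inv, Matrix.one_mul]
      _ = ρ i γ * M := by
        rw [hM]
        simp only [Matrix.mul_assoc]
      _ = r • (ρ i γ * T) := by rw [hMT, Matrix.mul_smul]
  have hdr : r * r = 1 := by
    have h5 : T * ρ j γ * T' = r • ρ i γ := by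
      rw [hfin, Matrix.smul_mul, Matrix.mul_assoc, hTT', Matrix.mul_one]
    have h6 := Matrix.det_conj_of_mul_eq_one (N := ρ j γ) hTT' hT'T
    rw [h5, Matrix.det_smul, hi.1, hdet γ] at h6
    have h7 := ρ_det (ρ := ρ) j γ
    have h8 : (r * r - 1) * (ρ j γ).det = 0 := by linear_combination h6
    exact sub_eq_zero.1 ((mul_eq_zero.1 h8).resolve_right h7)
  rcases mul_self_eq_one_iff.1 hdr with rfl | rfl
  · exact hγ1 (by rw [hfin, one_smul])
  · exact hγ2 (by rw [hfin, neg_one_smul])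

end fam

end Pool.Agent.R919.GT
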