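import Mathlib
import Pool.Agent.R919.GT.Iso

/-!
# The number of the exceptional members of a family
-/

set_option linter.unusedSectionVars false
set_option autoImplicit false

namespace Pool.Agent.R919.GT

open Matrix Polynomial Module

section eig

variable {F : Type} [Field F] {B : Type} [Fintype B] [DecidableEq B]

/-- The commutator with `A` as an endomorphism. -/
noncomputable def ad (A : Matrix B B F) : Module.End F (Matrix B B F) :=
  LinearMap.mulLeft F A - LinearMap.mulRight F A

theorem ad_apply (A X : Matrix B B F) : ad A X = A * X - X * A := rfl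

theorem aeval_shift (A u : Matrix B B F) (l : F) (h : A * u = u * (A + algebraMap F _ l))
    (p : F[X]) : aeval A p * u = u * aeval A (p.comp (X + C l)) := by
  induction p using Polynomial.induction_on with
  | C a =>
    rw [aeval_C, C_comp, aeval_C]
    exact Algebra.commutes a u
  | add p q hp hq => rw [map_add, add_mul, hp, hq, add_comp, map_add, mul_add]
  | monomial n a hn =>
    have h1 : (C a * X ^ (n + 1) : F[X]) = (C a * X ^ n) * X := by ring
    have h2 : ((C a * X ^ n : F[X]) * X).comp (X + C l) =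
        (C a * X ^ n : F[X]).comp (X + C l) * (X + C l) := by
      rw [mul_comp, X_comp]
    rw [h1, h2, map_mul (aeval A) (C a * X ^ n) X, aeval_X, mul_assoc, h, ← mul_assoc, hn,
      map_mul (aeval A) ((C a * X ^ n : F[X]).comp (X + C l)), map_add (aeval A) X, aeval_X,
      aeval_C, mul_assoc]

/-- If a commutator has an eigenvalue then it is a difference of eigenvalues. -/
theorem eig_diff [IsAlgClosed F] (A u : Matrix B B F) (l : F) (hu : u ≠ 0)
    (h : A * u - u * A = l • u) :
    ∃ a ∈ A.charpoly.roots, ∃ b ∈ A.charpoly.roots, a - b = l := by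
  by_contra hcon
  push Not at hcon
  have hB : Nonempty B := by
    by_contra hne
    rw [not_nonempty_iff] at hne
    exact hu (Subsingleton.elim _ _)
  apply hu
  have h1 : A * u = u * (A + algebraMap F _ l) := by
    rw [mul_add, ← Algebra.commutes l u, ← Algebra.smul_def, ← h]
    abel
  have h2 := aeval_shift A u l h1 A.charpoly
  rw [Matrix.aeval_self_charpoly, zero_mul] at h2
  have h3 : IsUnit (aeval A (A.charpoly.comp (X + C l))) := by
    by_contra hnu
    have h4 : (0 : F) ∈ spectrum F (aeval A (A.charpoly.comp (X + C l))) := by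
      rw [spectrum.zero_mem_iff]
      exact hnu
    rw [spectrum.map_polynomial_aeval_of_nonempty A _
      (spectrum.nonempty_of_isAlgClosed_of_finiteDimensional F A)] at h4
    obtain ⟨b, hb, hb'⟩ := h4
    have hb2 : b ∈ A.charpoly.roots := by
      rw [mem_roots (Matrix.charpoly_monic A).ne_zero]
      exact Matrix.mem_spectrum_iff_isRoot_charpoly.1 hb
    have ha2 : b + l ∈ A.charpoly.roots := by
      rw [mem_roots (Matrix.charpoly_monic A).ne_zero, IsRoot.def]
      simpa using hb'
    exact hcon _ ha2 _ hb2 (by ring)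
  obtain ⟨v, hv⟩ := h3
  rw [← hv] at h2
  have h5 := congrArg (fun M => M * ((v⁻¹ : (Matrix B B F)ˣ) : Matrix B B F)) h2
  simp only [zero_mul, mul_assoc, Units.mul_inv, mul_one] at h5
  exact h5.symm

theorem roots_neg {Q : Matrix B B F} (hQ : IsUnit Q) {A : Matrix B B F}
    (hA : Aᵀ * Q + Q * A = 0) {a : F} (ha : a ∈ A.charpoly.roots) :
    -a ∈ A.charpoly.roots := by
  rw [mem_roots (Matrix.charpoly_monic A).ne_zero] at ha ⊢
  rw [← Matrix.mem_spectrum_iff_isRoot_charpoly, spectrum.mem_iff] at ha ⊢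
  intro hu
  apply ha
  have h1 : Q * (algebraMap F _ (-a) - A) = -((algebraMap F _ a - A)ᵀ * Q) := by
    have h2 : Q * A = -(Aᵀ * Q) := by
      rw [eq_neg_iff_add_eq_zero, add_comm]
      exact hA
    rw [mul_sub, h2, transpose_sub, sub_mul, map_neg]
    have h3 : (algebraMap F (Matrix B B F) a)ᵀ = algebraMap F _ a := by
      rw [Matrix.algebraMap_eq_diagonal, diagonal_transpose]
    rw [h3, mul_neg, ← Algebra.commutes a Q]
    abel
  have h2 : IsUnit (Q * (algebraMap F _ (-a) - A)) := hQ.mul hu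
  rw [h1, IsUnit.neg_iff, Matrix.isUnit_iff_isUnit_det, det_mul, det_transpose] at h2
  rw [Matrix.isUnit_iff_isUnit_det]
  exact isUnit_of_mul_isUnit_left h2

variable [CharZero F]

/-- The rank of a set stable under negation. -/
theorem rank_half (E : Finset F) (hE : ∀ a ∈ E, -a ∈ E) :
    2 * Module.finrank ℚ (Submodule.span ℚ (E : Set F)) ≤ E.card := by
  classical
  obtain ⟨b, hb1, hb2, hb3⟩ := exists_linearIndependent ℚ (E : Set F)
  have hbf : b.Finite := E.finite_toSet.subset hb1
  obtain ⟨b', rfl⟩ : ∃ b' : Finset F, (b' : Set F) = b := ⟨hbf.toFinset, hbf.coe_toFinset⟩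
  have h1 : Module.finrank ℚ (Submodule.span ℚ (E : Set F)) = b'.card := by
    rw [← hb2]
    exact finrank_span_finset_eq_card hb3
  rw [h1]
  have hne : ∀ x ∈ b', x ≠ 0 := fun x hx => hb3.ne_zero (⟨x, hx⟩ : (b' : Set F))
  have hdis : Disjoint b' (b'.image fun x => -x) := by
    rw [Finset.disjoint_left]
    intro x hx hx'
    obtain ⟨y, hy, hyx⟩ := Finset.mem_image.1 hx'
    by_cases hxy : x = y
    · subst hxy
      exact hne x hx (self_eq_neg.1 hyx.symm)
    · have h2 := linearIndependent_iff'.1 hb3 {(⟨x, hx⟩ : (b' : Set F)), ⟨y, hy⟩} (fun _ => 1)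
        (by
          rw [Finset.sum_pair (fun h => hxy (congrArg Subtype.val h)), one_smul, one_smul]
          change x + y = 0
          rw [← hyx]
          exact neg_add_cancel y) ⟨x, hx⟩ (by simp)
      exact one_ne_zero h2
  have hsub : b' ∪ (b'.image fun x => -x) ⊆ E := by
    apply Finset.union_subset
    · exact hb1
    · intro x hx
      obtain ⟨y, hy, rfl⟩ := Finset.mem_image.1 hx
      exact hE y (hb1 hy)
  have hcard := Finset.card_le_card hsub
  rw [Finset.card_union_of_disjoint hdis, Finset.card_image_of_injective _ neg_injective] at hcard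
  omega

variable (F) in
/-- There are as many rationally independent elements as one wants. -/
theorem exists_indep [IsAlgClosed F] (n : ℕ) : ∃ μ : Fin n → F, LinearIndependent ℚ μ := by
  obtain ⟨p, hp, hpp⟩ := Nat.exists_infinite_primes (n + 1)
  have hp0 : 0 < p := hpp.pos
  have : NeZero (p : F) := ⟨by exact_mod_cast hp0.ne'⟩
  obtain ⟨ζ, hζ⟩ := IsAlgClosed.exists_root (cyclotomic p F) (by
    rw [degree_cyclotomic]
    have := Nat.totient_pos.2 hp0
    exact_mod_cast this.ne')
  rw [isRoot_cyclotomic_iff] at hζ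
  have h1 : (minpoly ℚ ζ).natDegree = p - 1 := by
    rw [← cyclotomic_eq_minpoly_rat hζ hp0, natDegree_cyclotomic, Nat.totient_prime hpp]
  have h2 : LinearIndependent ℚ (fun i : Fin (minpoly ℚ ζ).natDegree => ζ ^ (i : ℕ)) :=
    linearIndependent_pow ζ
  have h3 : n ≤ (minpoly ℚ ζ).natDegree := by omega
  exact ⟨fun i => ζ ^ ((Fin.castLE h3 i : Fin _) : ℕ), h2.comp _ (Fin.castLE_injective h3)⟩

theorem card_le_of_mem {ι : Type} (S : Finset ι) (μ : S → F) (hμ : LinearIndependent ℚ μ)
    (E : Finset F) (h : ∀ i, μ i ∈ Submodule.span ℚ (E : Set F)) :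
    S.card ≤ Module.finrank ℚ (Submodule.span ℚ (E : Set F)) := by
  have h1 : LinearIndependent ℚ (fun i => (⟨μ i, h i⟩ : Submodule.span ℚ (E : Set F))) := by
    refine LinearIndependent.of_comp (Submodule.span ℚ (E : Set F)).subtype ?_
    exact hμ
  have : FiniteDimensional ℚ (Submodule.span ℚ (E : Set F)) :=
    FiniteDimensional.span_finset ℚ E
  have h2 := h1.fintype_card_le_finrank
  rwa [Fintype.card_coe] at h2

theorem aeval_eig (A e : Matrix B B F) (l : F)
    (h : A * e - e * A = l • e) (p : F[X]) : aeval (ad A) p e = p.eval l • e := by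
  induction p using Polynomial.induction_on with
  | C a =>
    rw [aeval_C, eval_C]
    rfl
  | add p q hp hq => rw [map_add, LinearMap.add_apply, hp, hq, eval_add, add_smul]
  | monomial n a hn =>
    have h1 : (C a * X ^ (n + 1) : F[X]) = X * (C a * X ^ n) := by ring
    rw [h1, map_mul, aeval_X, Module.End.mul_apply, hn, map_smul, ad_apply, h, smul_smul]
    congr 1
    simp only [eval_mul, eval_X, eval_C, eval_pow]
    ring

end eig

section bound

variable {F : Type} [Field F] [CharZero F] {J : Type} {B : J → Type} [∀ j, Fintype (B j)]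
  [∀ j, DecidableEq (B j)] {Γ : Type} [Group Γ] {ρ : ∀ j, Γ →* Matrix (B j) (B j) F}

/-- Polynomials in the commutator. -/
theorem exists_pol {x z : ∀ j, Matrix (B j) (B j) F} (hx : x ∈ L' ρ) (hz : z ∈ L' ρ)
    (p : F[X]) : ∃ w ∈ L' ρ, ∀ j, w j = aeval (ad (x j)) p (z j) := by
  induction p using Polynomial.induction_on with
  | C a =>
    refine ⟨a • z, Submodule.smul_mem _ _ hz, fun j => ?_⟩
    rw [aeval_C]
    rfl
  | add p q hp hq =>
    obtain ⟨w, hw, hw'⟩ := hp
    obtain ⟨v, hv, hv'⟩ := hq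
    refine ⟨w + v, Submodule.add_mem _ hw hv, fun j => ?_⟩
    rw [map_add, LinearMap.add_apply, Pi.add_apply, hw', hv']
  | monomial n a hn =>
    obtain ⟨w, hw, hw'⟩ := hn
    refine ⟨x * w - w * x, brk_mem' (L'_le hx) (L'_le hw), fun j => ?_⟩
    have h1 : (C a * X ^ (n + 1) : F[X]) = X * (C a * X ^ n) := by ring
    rw [h1, map_mul, aeval_X, Module.End.mul_apply, ← hw', ad_apply]
    rfl

theorem exists_he {C : Type} [Fintype C] [DecidableEq C] (hC : Fintype.card C = 2) :
    ∃ h ∈ sl F C, ∃ e ∈ sl F C, e ≠ 0 ∧ h * e - e * h = (2 : F) • e := by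
  obtain ⟨a, b, hab, hall⟩ := exists_two hC
  have hba := hab.symm
  refine ⟨Matrix.single a a 1 - Matrix.single b b 1, ?_, Matrix.single a b 1, ?_, ?_, ?_⟩
  · rw [mem_sl, trace_sub, Matrix.trace_single_eq_same, Matrix.trace_single_eq_same, sub_self]
  · rw [mem_sl, Matrix.trace_single_eq_of_ne _ _ _ hab]
  · intro h
    have h1 := congrFun (congrFun h a) b
    rw [Matrix.single_apply_same] at h1
    exact one_ne_zero h1
  · rw [sub_mul, mul_sub, Matrix.single_mul_single_same, Matrix.single_mul_single_of_ne _ _ _ _ hba,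
      Matrix.single_mul_single_of_ne _ _ _ _ hba, Matrix.single_mul_single_same, two_smul]
    simp

/-- The bound for the number of the exceptional members of the family. -/
theorem bound [IsAlgClosed F] [DecidableEq J] (o : J) {Q : Matrix (B o) (B o) F} (hQu : IsUnit Q)
    (hQ : ∀ γ, ∃ χ : F, (ρ o γ)ᵀ * Q * ρ o γ = χ • Q) (S : Finset J)
    (h1 : ∀ i ∈ S, Irr ρ i) (hf : ∀ i ∈ S, ∀ y ∈ sl F (B i), ∃ z ∈ L' ρ, z i = y)
    (h2 : ∀ i ∈ S, ∀ t ∈ S, i ≠ t → ∃ x ∈ L' ρ, x t = 0 ∧ x i ≠ 0)
    (h3 : ∀ i ∈ S, ∀ x ∈ L' ρ, x o = 0 → x i = 0) :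
    2 * S.card ≤ Fintype.card (B o) := by
  classical
  have hhe : ∀ i ∈ S, ∃ h ∈ sl F (B i), ∃ e ∈ sl F (B i), e ≠ 0 ∧
      h * e - e * h = (2 : F) • e := fun i hi => exists_he (h1 i hi).1
  choose! h hh e he he0 hhe using hhe
  have hconc : ∀ i ∈ S, ∃ z ∈ L' ρ, z i = h i ∧ ∀ t ∈ S.erase i, z t = 0 := by
    intro i hi
    refine conc (h1 i hi) (hf i hi) (S.erase i) (fun t ht => ?_) _ (hh i hi)
    exact h2 i hi t (Finset.mem_of_mem_erase ht) (Ne.symm (Finset.ne_of_mem_erase ht))
  choose! Y hY hYi hYt using hconc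
  obtain ⟨μ', hμ'⟩ := exists_indep F S.card
  obtain ⟨μ, hμ⟩ : ∃ μ : J → F, LinearIndependent ℚ (fun i : S => μ i) := by
    refine ⟨fun j => if h : j ∈ S then μ' (S.equivFin ⟨j, h⟩) else 0, ?_⟩
    convert hμ'.comp _ S.equivFin.injective using 1
    funext i
    simp
  -- the element of the Lie algebra
  set x : ∀ j, Matrix (B j) (B j) F := ∑ i ∈ S, μ i • Y i with hxdef
  have hx : x ∈ L' ρ := Submodule.sum_mem _ fun i hi => Submodule.smul_mem _ _ (hY i hi)
  have hxi : ∀ i ∈ S, x i = μ i • h i := by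
    intro i hi
    rw [hxdef, Finset.sum_apply, Finset.sum_eq_single i]
    · rw [Pi.smul_apply, hYi i hi]
    · intro t ht hti
      rw [Pi.smul_apply, hYt t ht i (Finset.mem_erase.2 ⟨Ne.symm hti, hi⟩), smul_zero]
    · intro h
      exact absurd hi h
  -- the eigenvalues
  have hev : ∀ i ∈ S, ∃ u : Matrix (B o) (B o) F, u ≠ 0 ∧
      x o * u - u * x o = (μ i * 2) • u := by
    intro i hi
    obtain ⟨z, hz, hzi⟩ := hf i hi _ (he i hi)
    set p := minpoly F (ad (x o)) with hp
    obtain ⟨w, hw, hw'⟩ := exists_pol hx hz p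
    have hwo : w o = 0 := by
      rw [hw', hp, minpoly.aeval, LinearMap.zero_apply]
    have hei : x i * e i - e i * x i = (μ i * 2) • e i := by
      rw [hxi i hi, smul_mul_assoc, mul_smul_comm, ← smul_sub, hhe i hi, smul_smul]
    have hwi : w i = p.eval (μ i * 2) • e i := by
      rw [hw', hzi, aeval_eig _ _ _ hei]
    have hp0 : p.eval (μ i * 2) = 0 := by
      by_contra hne
      have h4 := h3 i hi w hw hwo
      rw [hwi] at h4
      exact he0 i hi ((smul_eq_zero.1 h4).resolve_left hne)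
    have hroot : (ad (x o)).HasEigenvalue (μ i * 2) :=
      Module.End.hasEigenvalue_of_isRoot hp0
    obtain ⟨u, hu⟩ := hroot.exists_hasEigenvector
    exact ⟨u, hu.2, hu.apply_eq_smul⟩
  -- the count
  set E : Finset F := (x o).charpoly.roots.toFinset with hE
  have hneg : ∀ a ∈ E, -a ∈ E := by
    intro a ha
    rw [hE, Multiset.mem_toFinset] at ha ⊢
    exact roots_neg hQu (form_L' hQ hx) ha
  have hcard : E.card ≤ Fintype.card (B o) := by
    calc E.card ≤ Multiset.card (x o).charpoly.roots := Multiset.toFinset_card_le _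
      _ ≤ (x o).charpoly.natDegree := Polynomial.card_roots' _
      _ = Fintype.card (B o) := Matrix.charpoly_natDegree_eq_dim _
  have hmem : ∀ i : S, μ i ∈ Submodule.span ℚ (E : Set F) := by
    rintro ⟨i, hi⟩
    obtain ⟨u, hu, hu'⟩ := hev i hi
    obtain ⟨a, ha, b, hb, hab⟩ := eig_diff _ _ _ hu hu'
    have ha' : a ∈ Submodule.span ℚ (E : Set F) :=
      Submodule.subset_span (by rw [hE]; exact_mod_cast Multiset.mem_toFinset.2 ha)
    have hb' : b ∈ Submodule.span ℚ (E : Set F) :=
      Submodule.subset_span (by rw [hE]; exact_mod_cast Multiset.mem_toFinset.2 hb)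
    have h4 : μ i * 2 ∈ Submodule.span ℚ (E : Set F) := by
      rw [← hab]
      exact Submodule.sub_mem _ ha' hb'
    have h5 : μ i = (2⁻¹ : ℚ) • (μ i * 2) := by
      rw [Rat.smul_def]
      push_cast
      field_simp
    change μ i ∈ _
    rw [h5]
    exact Submodule.smul_mem _ _ h4
  have h6 := card_le_of_mem S (fun i => μ i) hμ E hmem
  have h7 := rank_half E hneg
  omega

/-- The index `i` is exceptional for `o`. -/
def Exc (ρ : ∀ j, Γ →* Matrix (B j) (B j) F) (o i : J) : Prop :=
  ∀ x ∈ L' ρ, x o = 0 → x i = 0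

/-- The exceptional set is finite, with at most half as many members as the dimension. -/
theorem exists_finset [IsAlgClosed F] (o : J) {Q : Matrix (B o) (B o) F} (hQu : IsUnit Q)
    (hQ : ∀ γ, ∃ χ : F, (ρ o γ)ᵀ * Q * ρ o γ = χ • Q)
    (h1 : ∀ i, i ≠ o → Irr ρ i) (hf : ∀ i, i ≠ o → ∀ y ∈ sl F (B i), ∃ z ∈ L' ρ, z i = y)
    (h2 : ∀ i t, i ≠ o → t ≠ o → i ≠ t → ∃ x ∈ L' ρ, x t = 0 ∧ x i ≠ 0) :
    ∃ S : Finset J, o ∉ S ∧ 2 * S.card ≤ Fintype.card (B o) ∧ (∀ i ∈ S, Exc ρ o i) ∧
      ∀ i, i ≠ o → i ∉ S → ∃ x ∈ L' ρ, x o = 0 ∧ x i ≠ 0 := by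
  classical
  have hb : ∀ S : Finset J, (∀ i ∈ S, i ≠ o ∧ Exc ρ o i) →
      2 * S.card ≤ Fintype.card (B o) := by
    intro S hS
    exact bound o hQu hQ S (fun j hj => h1 j (hS j hj).1) (fun j hj => hf j (hS j hj).1)
      (fun s hs t ht hst => h2 s t (hS s hs).1 (hS t ht).1 hst) (fun j hj => (hS j hj).2)
  have hfin : {i | i ≠ o ∧ Exc ρ o i}.Finite := by
    by_contra hinf
    obtain ⟨S, hS, hcard⟩ := Set.Infinite.exists_subset_card_eq hinf (Fintype.card (B o) + 1)
    have h3 := hb S fun i hi => hS hi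
    omega
  refine ⟨hfin.toFinset, ?_, hb _ fun i hi => hfin.mem_toFinset.1 hi,
    fun i hi => (hfin.mem_toFinset.1 hi).2, fun i hi hi' => ?_⟩
  · intro h
    exact (hfin.mem_toFinset.1 h).1 rfl
  · by_contra hcon
    push Not at hcon
    exact hi' (hfin.mem_toFinset.2 ⟨hi, hcon⟩)

end bound

end Pool.Agent.R919.GT
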