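import Mathlib
import Pool.Agent.R919.GT.Prs

/-!
# Tensors which are killed by the matrices of trace zero are semi-invariant
-/

set_option linter.unusedSectionVars false
set_option autoImplicit false

namespace Pool.Agent.R919.GT

open Matrix Polynomial Module

section exp

variable {F : Type} [Field F] [CharZero F] {κ : Type} [Fintype κ] [DecidableEq κ] {A : κ → Type}
  [∀ x, Fintype (A x)] [∀ x, DecidableEq (A x)]

/-- Unipotent elements act trivially on the tensors which are killed by the logarithm. -/
theorem unip (y : ∀ x, Matrix (A x) (A x) F) (hy : ∀ x, y x * y x = 0) {c : (∀ x, A x) → F}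
    (hc : act y c = 0) : tact (fun x => 1 + y x) c = c := by
  have hsq : ∀ x, act1 x (y x) ^ 2 = 0 := by
    intro x
    rw [pow_two, ← map_mul, hy x, map_zero]
  have hnil : ∀ s : Finset κ, IsNilpotent (∑ x ∈ s, act1 x (y x)) := by
    intro s
    induction s using Finset.induction_on with
    | empty =>
      rw [Finset.sum_empty]
      exact IsNilpotent.zero
    | insert x s hx ih =>
      rw [Finset.sum_insert hx]
      refine Commute.isNilpotent_add ?_ ⟨2, hsq x⟩ ih
      refine Commute.sum_right _ _ _ fun z hz => ?_
      have hxz : x ≠ z := fun h => hx (h ▸ hz)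
      exact act1_comm hxz _ _
  have hexp : ∀ s : Finset κ, tact (fun x => if x ∈ s then 1 + y x else 1) =
      IsNilpotent.exp (∑ x ∈ s, act1 x (y x)) := by
    intro s
    induction s using Finset.induction_on with
    | empty =>
      simp only [Finset.notMem_empty, if_false, Finset.sum_empty]
      rw [tact_one, IsNilpotent.exp_zero]
    | insert x s hx ih =>
      have hcomm : Commute (act1 x (y x)) (∑ z ∈ s, act1 z (y z)) := by
        refine Commute.sum_right _ _ _ fun z hz => ?_
        have hxz : x ≠ z := fun h => hx (h ▸ hz)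
        exact act1_comm hxz _ _
      rw [Finset.sum_insert hx, IsNilpotent.exp_add_of_commute hcomm ⟨2, hsq x⟩ (hnil s), ← ih]
      have h1 : IsNilpotent.exp (act1 x (y x)) = tact (Pi.mulSingle x (1 + y x)) := by
        rw [IsNilpotent.exp_eq_sum (hsq x), tact_single, Finset.sum_range_succ,
          Finset.sum_range_one, pow_zero, pow_one, map_add, map_one]
        simp
      rw [h1, ← tact_mul]
      congr 1
      funext z
      by_cases hz : z = x
      · subst hz
        simp [hx]
      · simp [hz]
  have h1 := hexp Finset.univ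
  simp only [Finset.mem_univ, if_true] at h1
  rw [h1]
  obtain ⟨m, hm⟩ := hnil Finset.univ
  rw [IsNilpotent.exp_eq_sum hm]
  have h2 : ∀ k ∈ Finset.range m, k ≠ 0 →
      ((k.factorial : ℚ)⁻¹ • (∑ x, act1 x (y x)) ^ k) c = 0 := by
    intro k _ hk
    obtain ⟨l, rfl⟩ := Nat.exists_eq_succ_of_ne_zero hk
    have h3 : ((∑ x, act1 x (y x)) ^ (l + 1)) c = 0 := by
      rw [pow_succ, Module.End.mul_apply]
      have : (∑ x, act1 x (y x)) c = 0 := hc
      rw [this, map_zero]
    rw [LinearMap.smul_apply, h3, smul_zero]
  rw [LinearMap.sum_apply]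
  by_cases hm0 : m = 0
  · rw [hm0, pow_zero] at hm
    have h4 : c = 0 := by
      have := LinearMap.congr_fun hm c
      simpa using this
    rw [h4]
    simp
  · rw [Finset.sum_eq_single_of_mem 0 (Finset.mem_range.2 (Nat.pos_of_ne_zero hm0)) h2]
    rw [LinearMap.smul_apply, pow_zero, Nat.factorial_zero, Nat.cast_one, inv_one, one_smul]
    rfl

end exp

section col

variable {F : Type} [Field F] [CharZero F] {J : Type} [DecidableEq J] {B : J → Type}
  [∀ j, Fintype (B j)] [∀ j, DecidableEq (B j)] {κ : Type} [Fintype κ] [DecidableEq κ] (f : κ → J)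

/-- The number of the factors of colour `i`. -/
def cnt (i : J) : ℕ := (Finset.univ.filter fun x => f x = i).card

/-- The action of a matrix on the factors of colour `i`. -/
def cact (i : J) (g : Matrix (B i) (B i) F) : End F ((∀ x, B (f x)) → F) :=
  tact (fun x => (Pi.mulSingle i g : ∀ j, Matrix (B j) (B j) F) (f x))

theorem cact_mul (i : J) (g h : Matrix (B i) (B i) F) : cact f i (g * h) = cact f i g * cact f i h := by
  rw [cact, cact, cact, ← tact_mul]
  congr 1
  funext x
  rw [Pi.mulSingle_mul, Pi.mul_apply]

theorem cact_smul (i : J) (r : F) (g : Matrix (B i) (B i) F) :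
    cact f i (r • g) = r ^ cnt f i • cact f i g := by
  refine LinearMap.ext fun c => funext fun I => ?_
  rw [LinearMap.smul_apply, Pi.smul_apply, cact, cact, tact_apply, tact_apply, smul_eq_mul,
    Finset.mul_sum]
  refine Finset.sum_congr rfl fun I' _ => ?_
  rw [← mul_assoc]
  congr 1
  have h : ∀ x, (Pi.mulSingle i (r • g) : ∀ j, Matrix (B j) (B j) F) (f x) (I x) (I' x) =
      (if f x = i then r else 1) *
        (Pi.mulSingle i g : ∀ j, Matrix (B j) (B j) F) (f x) (I x) (I' x) := by
    intro x
    by_cases hx : f x = i
    · rw [if_pos hx]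
      generalize I x = a
      generalize I' x = b
      revert a b
      rw [hx]
      intro a b
      rw [Pi.mulSingle_eq_same, Pi.mulSingle_eq_same, Matrix.smul_apply, smul_eq_mul]
    · rw [if_neg hx, Pi.mulSingle_eq_of_ne hx, Pi.mulSingle_eq_of_ne hx, one_mul]
  simp only [h]
  rw [Finset.prod_mul_distrib, Finset.prod_ite, Finset.prod_const_one, mul_one,
    Finset.prod_const]
  rfl

/-- The tensor is killed by the matrices of trace zero acting on the factors of colour `i`. -/
def Killed (i : J) (c : (∀ x, B (f x)) → F) : Prop :=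
  ∀ y ∈ sl F (B i), act (fun x => (Pi.single i y : ∀ j, Matrix (B j) (B j) F) (f x)) c = 0

variable {f}

theorem cact_unip {i : J} {c : (∀ x, B (f x)) → F} (hc : Killed f i c) {y : Matrix (B i) (B i) F}
    (hy : y ∈ sl F (B i)) (hyy : y * y = 0) : cact f i (1 + y) c = c := by
  have h := unip (fun x => (Pi.single i y : ∀ j, Matrix (B j) (B j) F) (f x))
    (by
      intro x
      by_cases hx : f x = i
      · rw [hx, Pi.single_eq_same, hyy]
      · rw [Pi.single_eq_of_ne hx, mul_zero]) (hc y hy)
  rw [cact]
  convert h using 2
  congr 1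
  funext x
  by_cases hx : f x = i
  · rw [hx, Pi.mulSingle_eq_same, Pi.single_eq_same]
  · rw [Pi.mulSingle_eq_of_ne hx, Pi.single_eq_of_ne hx, add_zero]

theorem single_sl {i : J} {a b : B i} (hab : a ≠ b) (t : F) : Matrix.single a b t ∈ sl F (B i) := by
  rw [mem_sl, Matrix.trace_single_eq_of_ne _ _ _ hab]

theorem single_sq {i : J} {a b : B i} (hab : a ≠ b) (t : F) :
    Matrix.single a b t * Matrix.single a b t = 0 := by
  rw [Matrix.single_mul_single_of_ne _ _ _ _ hab.symm]

theorem cact_det_one {i : J} (hB : Fintype.card (B i) = 2) {c : (∀ x, B (f x)) → F}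
    (hc : Killed f i c) {g : Matrix (B i) (B i) F} (hg : g.det = 1) : cact f i g c = c := by
  obtain ⟨a, b, hab, hall⟩ := exists_two hB
  have hdet : ∀ M : Matrix (B i) (B i) F, M.det = M a a * M b b - M a b * M b a := by
    intro M
    have h1 := ch hB M
    have h2 := congrFun (congrFun h1 a) a
    rw [Matrix.mul_apply, sum_two hab hall, Matrix.sub_apply, Matrix.smul_apply,
      Matrix.smul_apply, Matrix.one_apply_eq, trace, sum_two hab hall] at h2
    simp only [diag_apply, smul_eq_mul] at h2
    linear_combination h2
  have hprod : ∀ g h : Matrix (B i) (B i) F, cact f i g c = c → cact f i h c = c →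
      cact f i (g * h) c = c := by
    intro g h h1 h2
    rw [cact_mul, Module.End.mul_apply, h2, h1]
  have hab' : ∀ t, cact f i (1 + Matrix.single a b t) c = c :=
    fun t => cact_unip hc (single_sl hab t) (single_sq hab t)
  have hba' : ∀ t, cact f i (1 + Matrix.single b a t) c = c :=
    fun t => cact_unip hc (single_sl hab.symm t) (single_sq hab.symm t)
  have hmain : ∀ g : Matrix (B i) (B i) F, g.det = 1 → g b a ≠ 0 → cact f i g c = c := by
    intro g hg h0
    have e : g = (1 + Matrix.single a b ((g a a - 1) / g b a)) *
        ((1 + Matrix.single b a (g b a)) * (1 + Matrix.single a b ((g b b - 1) / g b a))) := by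
      rw [hdet g] at hg
      have hba := hab.symm
      have v1 : ∀ t : F, (1 + Matrix.single a b t) a a = 1 := by
        intro t
        simp [Matrix.single_apply, hba]
      have v2 : ∀ t : F, (1 + Matrix.single a b t) a b = t := by
        intro t
        simp [hab]
      have v3 : ∀ t : F, (1 + Matrix.single a b t) b a = 0 := by
        intro t
        simp [Matrix.single_apply, hab, hba]
      have v4 : ∀ t : F, (1 + Matrix.single a b t) b b = 1 := by
        intro t
        simp [Matrix.single_apply, hab]
      have w1 : ∀ t : F, (1 + Matrix.single b a t) a a = 1 := by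
        intro t
        simp [Matrix.single_apply, hba]
      have w2 : ∀ t : F, (1 + Matrix.single b a t) a b = 0 := by
        intro t
        simp [Matrix.single_apply, hab, hba]
      have w3 : ∀ t : F, (1 + Matrix.single b a t) b a = t := by
        intro t
        simp [hba]
      have w4 : ∀ t : F, (1 + Matrix.single b a t) b b = 1 := by
        intro t
        simp [Matrix.single_apply, hab]
      ext p q
      rcases hall p with rfl | rfl <;> rcases hall q with rfl | rfl <;>
        rw [Matrix.mul_apply, sum_two hab hall, Matrix.mul_apply, Matrix.mul_apply,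
          sum_two hab hall, sum_two hab hall]
      · rw [v1, v2, v1, v3, w1, w2, w3, w4]
        field_simp
        ring
      · rw [v1, v2, v2, v4, w1, w2, w3, w4]
        field_simp
        linear_combination -hg
      · rw [v3, v4, v1, v3, w1, w2, w3, w4]
        field_simp
        ring
      · rw [v3, v4, v2, v4, w1, w2, w3, w4]
        field_simp
        ring
    rw [e]
    exact hprod _ _ (hab' _) (hprod _ _ (hba' _) (hab' _))
  by_cases h0 : g b a = 0
  · have h1 : g b b ≠ 0 := by
      intro h
      rw [hdet g, h0, h] at hg
      simp at hg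
    have h2 : cact f i (g * (1 + Matrix.single b a 1)) c = c := by
      refine hmain _ ?_ ?_
      · rw [det_mul, hg, one_mul, hdet]
        have hba := hab.symm
        simp [Matrix.single_apply, hab, hba]
      · rw [Matrix.mul_apply, sum_two hab hall]
        have hba := hab.symm
        simp [Matrix.single_apply, hab, hba, h0, h1]
    have h3 : g = (g * (1 + Matrix.single b a 1)) * (1 + Matrix.single b a (-1)) := by
      have : (1 + Matrix.single b a (1 : F)) * (1 + Matrix.single b a (-1)) = 1 := by
        rw [add_mul, one_mul, mul_add, mul_one, Matrix.single_mul_single_of_ne _ _ _ _ hab,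
          add_zero, add_assoc, ← Matrix.single_add]
        simp
      rw [mul_assoc, this, mul_one]
    rw [h3]
    exact hprod _ _ h2 (hba' _)
  · exact hmain g hg h0

/-- **Semi-invariance.** -/
theorem cact_eq [IsAlgClosed F] {i : J} (hB : Fintype.card (B i) = 2) {c : (∀ x, B (f x)) → F}
    (hc : Killed f i c) {g : Matrix (B i) (B i) F} (hg : g.det ≠ 0) :
    cact f i g c = g.det ^ (cnt f i / 2) • c := by
  have hgen : ∀ (r : F) (h : Matrix (B i) (B i) F), h.det = 1 →
      cact f i (r • h) c = r ^ cnt f i • c := by
    intro r h hh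
    rw [cact_smul, LinearMap.smul_apply, cact_det_one hB hc hh]
  obtain ⟨r, hr⟩ := IsAlgClosed.exists_pow_nat_eq g.det (n := 2) two_pos
  have hr0 : r ≠ 0 := by
    rintro rfl
    apply hg
    rw [← hr]
    simp
  have h1 : g = r • (r⁻¹ • g) := by rw [smul_smul, mul_inv_cancel₀ hr0, one_smul]
  have h2 : (r⁻¹ • g).det = 1 := by
    rw [det_smul, hB, ← hr]
    field_simp
  rcases Nat.even_or_odd' (cnt f i) with ⟨k, hk | hk⟩
  · rw [h1, hgen r _ h2, ← h1, hk, Nat.mul_div_cancel_left k two_pos, ← hr, ← pow_mul]
  · have h3 : c = 0 := by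
      have h4 := hgen (-1) (-1 : Matrix (B i) (B i) F) (by
        rw [det_neg, hB, det_one]
        ring)
      have h5 : ((-1 : F) • (-1 : Matrix (B i) (B i) F)) = 1 := by simp
      rw [h5, hk, pow_add, pow_mul] at h4
      have h6 : cact f i (1 : Matrix (B i) (B i) F) c = c := cact_det_one hB hc det_one
      rw [h6] at h4
      have h7 : c = -c := by
        conv_lhs => rw [h4]
        simp
      funext I
      have h8 := congrFun h7 I
      rw [Pi.neg_apply] at h8
      rw [Pi.zero_apply]
      exact self_eq_neg.1 h8
    rw [h3, map_zero, smul_zero]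

end col

end Pool.Agent.R919.GT
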