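import Mathlib
import Pool.Agent.R919.GT.Bd
import Pool.Agent.R919.GT.Sl

/-!
# The conditions for the two-dimensional representations
-/

set_option linter.unusedSectionVars false
set_option autoImplicit false

namespace Pool.Agent.R919.GT

open Matrix Polynomial Module

theorem index_two {Γ : Type} [Group Γ] (Δ : Subgroup Γ) (h : ∀ a b, a ∉ Δ → b ∉ Δ → a * b ∈ Δ) :
    Δ.FiniteIndex := by
  by_cases htop : ∀ a, a ∈ Δ
  · have : Δ = ⊤ := by
      rw [Subgroup.eq_top_iff']
      exact htop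
    rw [this]
    infer_instance
  · push Not at htop
    obtain ⟨a, ha⟩ := htop
    have h2 : Δ.index = 2 := by
      rw [Subgroup.index_eq_two_iff]
      refine ⟨a, fun b => ?_⟩
      by_cases hb : b ∈ Δ
      · refine Or.inr ⟨hb, fun hba => ha ?_⟩
        exact (Subgroup.mul_mem_cancel_left Δ hb).1 hba
      · exact Or.inl ⟨h b a hb ha, hb⟩
    exact ⟨by rw [h2]; exact two_ne_zero⟩

section line

variable {F : Type} [Field F] [CharZero F] {B : Type} [Fintype B] [DecidableEq B]

theorem eigenline (hB : Fintype.card B = 2) {s : Matrix B B F} (hs : s ∈ sl F B) (hs0 : s ≠ 0)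
    {l : F} {v w : B → F} (hv0 : v ≠ 0) (hv : s *ᵥ v = l • v) (hw : s *ᵥ w = l • w) :
    ∃ r : F, w = r • v := by
  by_contra hcon
  push Not at hcon
  have h1 : LinearIndependent F ![v, w] := by
    rw [LinearIndependent.pair_iff' hv0]
    intro r hr
    exact hcon r hr.symm
  have h2 : Submodule.span F (Set.range ![v, w]) = ⊤ :=
    h1.span_eq_top_of_card_eq_finrank (by
      rw [Fintype.card_fin, Module.finrank_fintype_fun_eq_card, hB])
  have h3 : ∀ u : B → F, s *ᵥ u = l • u := by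
    intro u
    have hu : u ∈ Submodule.span F (Set.range ![v, w]) := by
      rw [h2]
      exact Submodule.mem_top
    rw [Matrix.range_cons, Matrix.range_cons, Matrix.range_empty, Set.union_empty,
      Set.singleton_union, Submodule.mem_span_pair] at hu
    obtain ⟨a, b, rfl⟩ := hu
    rw [Matrix.mulVec_add, Matrix.mulVec_smul, Matrix.mulVec_smul, hv, hw, smul_add,
      smul_comm a l, smul_comm b l]
  have h4 : s = l • 1 := by
    refine Matrix.ext_of_mulVec_single fun j => ?_
    rw [h3, Matrix.smul_mulVec, Matrix.one_mulVec]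
  apply hs0
  have h5 := mem_sl.1 hs
  rw [h4, trace_smul, trace_one, hB, smul_eq_mul] at h5
  have h6 : l = 0 := (mul_eq_zero.1 h5).resolve_right (by norm_num)
  rw [h4, h6, zero_smul]

end line

section fam

variable {F : Type} [Field F] [CharZero F] [IsAlgClosed F] {J : Type} {B : J → Type}
  [∀ j, Fintype (B j)] [∀ j, DecidableEq (B j)] {Γ : Type} [Group Γ]
  {ρ : ∀ j, Γ →* Matrix (B j) (B j) F}

theorem Irr.of {i : J} (hB : Fintype.card (B i) = 2)
    (h : ∀ Δ : Subgroup Γ, Δ.FiniteIndex → ∀ v : B i → F, v ≠ 0 →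
      ∃ γ ∈ Δ, ∀ r : F, ρ i γ *ᵥ v ≠ r • v) : Irr ρ i := by
  refine ⟨hB, fun s hs hs0 => ?_⟩
  by_contra hcon
  push Not at hcon
  have hne : Nonempty (B i) := Fintype.card_pos_iff.1 (by omega)
  obtain ⟨l, hl⟩ := Module.End.exists_eigenvalue (Matrix.toLin' s)
  obtain ⟨v, hv⟩ := hl.exists_hasEigenvector
  have hv0 : v ≠ 0 := hv.2
  have hsv : s *ᵥ v = l • v := by
    have := hv.apply_eq_smul
    rwa [Matrix.toLin'_apply] at this
  have hcomm : ∀ γ, ∃ r : F, ρ i γ * s = r • (s * ρ i γ) := by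
    intro γ
    obtain ⟨r, hr⟩ := hcon γ
    refine ⟨r, ?_⟩
    calc ρ i γ * s = ρ i γ * s * ρ i γ⁻¹ * ρ i γ := by rw [mul_assoc _ (ρ i γ⁻¹), ρ_inv', mul_one]
      _ = r • (s * ρ i γ) := by rw [hr, smul_mul_assoc]
  have hr0 : ∀ γ (r : F), ρ i γ * s = r • (s * ρ i γ) → r ≠ 0 := by
    rintro γ r hr rfl
    apply hs0
    rw [zero_smul] at hr
    calc s = ρ i γ⁻¹ * (ρ i γ * s) := by rw [← mul_assoc, ρ_inv', one_mul]
      _ = 0 := by rw [hr, mul_zero]
  by_cases hl0 : l = 0
  · obtain ⟨γ, _, hγ⟩ := h ⊤ inferInstance v hv0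
    obtain ⟨r, hr⟩ := hcomm γ
    have h1 : s *ᵥ (ρ i γ *ᵥ v) = l • (ρ i γ *ᵥ v) := by
      have h2 : r • (s *ᵥ (ρ i γ *ᵥ v)) = 0 := by
        rw [Matrix.mulVec_mulVec, ← Matrix.smul_mulVec, ← hr, ← Matrix.mulVec_mulVec, hsv, hl0,
          zero_smul, Matrix.mulVec_zero]
      rw [hl0, zero_smul]
      exact (smul_eq_zero.1 h2).resolve_left (hr0 γ r hr)
    obtain ⟨q, hq⟩ := eigenline hB hs hs0 hv0 hsv h1
    exact hγ q hq
  · have hdet : s.det ≠ 0 := by
      intro h0
      have h1 := ch0 hB hs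
      rw [h0] at h1
      have h2 : (s * s) *ᵥ v = (l * l) • v := by
        rw [← Matrix.mulVec_mulVec, hsv, Matrix.mulVec_smul, hsv, smul_smul]
      have h3 : (s * s) *ᵥ v = 0 := by
        rw [h1]
        simp
      rw [h3] at h2
      exact (smul_ne_zero (mul_ne_zero hl0 hl0) hv0) h2.symm
    have hpm : ∀ γ, ρ i γ * s = s * ρ i γ ∨ ρ i γ * s = -(s * ρ i γ) := by
      intro γ
      obtain ⟨r, hr⟩ := hcomm γ
      have h1 := congrArg Matrix.det hr
      rw [Matrix.det_mul, Matrix.det_smul, Matrix.det_mul, hB] at h1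
      have h2 := ρ_det (ρ := ρ) i γ
      have h3 : (r * r - 1) * ((ρ i γ).det * s.det) = 0 := by linear_combination -h1
      have h4 := sub_eq_zero.1 ((mul_eq_zero.1 h3).resolve_right (mul_ne_zero h2 hdet))
      rcases mul_self_eq_one_iff.1 h4 with rfl | rfl
      · exact Or.inl (by rw [hr, one_smul])
      · exact Or.inr (by rw [hr, neg_one_smul])
    let Δ : Subgroup Γ :=
      { carrier := {γ | ρ i γ * s = s * ρ i γ}
        one_mem' := by
          change ρ i 1 * s = s * ρ i 1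
          rw [map_one, one_mul, mul_one]
        mul_mem' := by
          intro a b ha hb
          change ρ i (a * b) * s = s * ρ i (a * b)
          have ha' : ρ i a * s = s * ρ i a := ha
          have hb' : ρ i b * s = s * ρ i b := hb
          rw [map_mul, mul_assoc, hb', ← mul_assoc, ha', mul_assoc]
        inv_mem' := by
          intro a ha
          change ρ i a⁻¹ * s = s * ρ i a⁻¹
          have ha' : ρ i a * s = s * ρ i a := ha
          calc ρ i a⁻¹ * s = ρ i a⁻¹ * (s * ρ i a) * ρ i a⁻¹ := by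
                rw [mul_assoc, mul_assoc, ρ_inv, mul_one]
            _ = s * ρ i a⁻¹ := by rw [← ha', ← mul_assoc, ρ_inv', one_mul] }
    have hΔ : Δ.FiniteIndex := by
      refine index_two Δ fun a b ha hb => ?_
      have ha' := (hpm a).resolve_left ha
      have hb' := (hpm b).resolve_left hb
      change ρ i (a * b) * s = s * ρ i (a * b)
      rw [map_mul, mul_assoc, hb', mul_neg, ← mul_assoc, ha', neg_mul, neg_neg, mul_assoc]
    obtain ⟨γ, hγΔ, hγ⟩ := h Δ hΔ v hv0
    have h1 : s *ᵥ (ρ i γ *ᵥ v) = l • (ρ i γ *ᵥ v) := by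
      have h2 : ρ i γ * s = s * ρ i γ := hγΔ
      rw [Matrix.mulVec_mulVec, ← h2, ← Matrix.mulVec_mulVec, hsv, Matrix.mulVec_smul]
    obtain ⟨q, hq⟩ := eigenline hB hs hs0 hv0 hsv h1
    exact hγ q hq

/-- The sign of an intertwiner. -/
theorem sgn {i j : J} (h : ∀ Δ : Subgroup Γ, Δ.FiniteIndex → ∀ T : Matrix (B i) (B j) F,
    (∀ γ ∈ Δ, T * ρ j γ = ρ i γ * T) → T = 0) (T : Matrix (B i) (B j) F) (hT : T ≠ 0) :
    ∃ γ, T * ρ j γ ≠ ρ i γ * T ∧ T * ρ j γ ≠ -(ρ i γ * T) := by
  by_contra hcon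
  push Not at hcon
  have hpm : ∀ γ, T * ρ j γ = ρ i γ * T ∨ T * ρ j γ = -(ρ i γ * T) := by
    intro γ
    by_cases hγ : T * ρ j γ = ρ i γ * T
    · exact Or.inl hγ
    · exact Or.inr (hcon γ hγ)
  let Δ : Subgroup Γ :=
    { carrier := {γ | T * ρ j γ = ρ i γ * T}
      one_mem' := by
        change T * ρ j 1 = ρ i 1 * T
        rw [map_one, map_one, Matrix.one_mul, Matrix.mul_one]
      mul_mem' := by
        intro a b ha hb
        change T * ρ j (a * b) = ρ i (a * b) * T
        have ha' : T * ρ j a = ρ i a * T := ha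
        have hb' : T * ρ j b = ρ i b * T := hb
        rw [map_mul, map_mul, ← Matrix.mul_assoc, ha', Matrix.mul_assoc, hb', Matrix.mul_assoc]
      inv_mem' := by
        intro a ha
        change T * ρ j a⁻¹ = ρ i a⁻¹ * T
        have ha' : T * ρ j a = ρ i a * T := ha
        calc T * ρ j a⁻¹ = (ρ i a⁻¹ * ρ i a) * (T * ρ j a⁻¹) := by rw [ρ_inv', Matrix.one_mul]
          _ = ρ i a⁻¹ * (ρ i a * T * ρ j a⁻¹) := by simp only [Matrix.mul_assoc]
          _ = ρ i a⁻¹ * T := by
            rw [← ha', Matrix.mul_assoc T, ρ_inv, Matrix.mul_one] }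
  have hΔ : Δ.FiniteIndex := by
    refine index_two Δ fun a b ha hb => ?_
    have ha' := (hpm a).resolve_left ha
    have hb' := (hpm b).resolve_left hb
    change T * ρ j (a * b) = ρ i (a * b) * T
    rw [map_mul, map_mul, ← Matrix.mul_assoc, ha', Matrix.neg_mul, Matrix.mul_assoc, hb',
      Matrix.mul_neg, neg_neg, Matrix.mul_assoc]
  exact hT (h Δ hΔ T fun γ hγ => hγ)

/-- Powers of a matrix of size two. -/
theorem trace_pow {C : Type} [Fintype C] [DecidableEq C] (hC : Fintype.card C = 2)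
    (A : Matrix C C F) {a b : F} (h1 : a + b = A.trace) (h2 : a * b = A.det) (n : ℕ) :
    (A ^ n).trace = a ^ n + b ^ n := by
  induction n using Nat.twoStepInduction with
  | zero =>
    rw [pow_zero, pow_zero, pow_zero, trace_one, hC]
    norm_num
  | one => rw [pow_one, pow_one, pow_one, h1]
  | more n ih1 ih2 =>
    have h3 := ch hC A
    have h4 : A ^ (n + 2) = A.trace • A ^ (n + 1) - A.det • A ^ n := by
      calc A ^ (n + 2) = A ^ n * (A * A) := by rw [pow_add, pow_two]
        _ = A.trace • A ^ (n + 1) - A.det • A ^ n := by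
          rw [h3, mul_sub, mul_smul_comm, mul_smul_comm, mul_one, pow_succ]
    rw [h4, trace_sub, trace_smul, trace_smul, ih1, ih2, smul_eq_mul, smul_eq_mul, ← h1, ← h2]
    ring

theorem exists_gen {i : J} (hB : Fintype.card (B i) = 2)
    (h : ∃ γ, ∀ n : ℕ, 0 < n → (ρ i (γ ^ n)).trace ^ 2 ≠ 4 * (ρ i (γ ^ n)).det) :
    ∃ D, IsGen ρ D ∧ ∀ r : F, D i ≠ r • 1 := by
  obtain ⟨γ, hγ⟩ := h
  have hne : Nonempty (B i) := Fintype.card_pos_iff.1 (by omega)
  obtain ⟨a, ha⟩ : ∃ a, a ∈ (ρ i γ).charpoly.roots := by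
    obtain ⟨a, ha⟩ := IsAlgClosed.exists_root (ρ i γ).charpoly (by
      rw [Matrix.charpoly_degree_eq_dim, hB]
      norm_num)
    exact ⟨a, (mem_roots (Matrix.charpoly_monic _).ne_zero).2 ha⟩
  set A := ρ i γ with hA
  have hroot : ∀ c : F, c ∈ A.charpoly.roots ↔ c * c - A.trace * c + A.det = 0 := by
    intro c
    rw [mem_roots (Matrix.charpoly_monic _).ne_zero, IsRoot.def, Matrix.charpoly_of_card_eq_two A hB]
    simp only [eval_add, eval_sub, eval_pow, eval_X, eval_mul, eval_C]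
    rw [pow_two]
  have ha' := (hroot a).1 ha
  set b := A.trace - a with hb
  have hb' : b ∈ A.charpoly.roots := by
    rw [hroot, hb]
    linear_combination ha'
  have h1 : a + b = A.trace := by
    rw [hb]
    ring
  have h2 : a * b = A.det := by
    rw [hb]
    linear_combination -ha'
  have hdet : A.det ≠ 0 := ρ_det i γ
  have ha0 : a ≠ 0 := by
    intro h0
    rw [← h2, h0, zero_mul] at hdet
    exact hdet rfl
  have hb0 : b ≠ 0 := by
    intro h0
    rw [← h2, h0, mul_zero] at hdet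
    exact hdet rfl
  obtain ⟨θ, hθ, hθu⟩ := exists_log (u := a * b⁻¹) (mul_ne_zero ha0 (inv_ne_zero hb0)) (by
    intro n hn hun
    apply hγ n hn
    rw [map_pow, ← hA, trace_pow hB A h1 h2, Matrix.det_pow, ← h2]
    have h3 : a ^ n = b ^ n := by
      rw [mul_pow, inv_pow] at hun
      have := pow_ne_zero n hb0
      field_simp at hun
      exact hun
    rw [mul_pow, h3]
    ring)
  choose D hD using fun j => exists_isRep θ (ρ j γ)
  refine ⟨D, ⟨γ, θ, hθ, hD⟩, fun r hr => ?_⟩
  obtain ⟨p, hp, hp'⟩ := hD i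
  have hev : ∀ c ∈ A.charpoly.roots, θ c = r := by
    intro c hc
    rw [← rep_eval hp' hc]
    have h3 : c ∈ spectrum F A := by
      rw [Matrix.mem_spectrum_iff_isRoot_charpoly]
      exact (mem_roots (Matrix.charpoly_monic _).ne_zero).1 hc
    have h4 : p.eval c ∈ spectrum F (aeval A p) := spectrum.subset_polynomial_aeval A p ⟨c, h3, rfl⟩
    have h5 : aeval A p = algebraMap F _ r := by
      rw [← hp, hr, Algebra.algebraMap_eq_smul_one]
    have : Nontrivial (Matrix (B i) (B i) F) := inferInstance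
    rw [h5, spectrum.scalar_eq] at h4
    exact h4
  apply hθu
  rw [hθ a b⁻¹ ha0 (inv_ne_zero hb0), hθ.inv hb0, hev a ha, hev b hb', add_neg_cancel]

end fam

end Pool.Agent.R919.GT
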