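import Mathlib
import Pool.Agent.R919.GT.Fld
import Pool.Agent.R919.GT.Hyp

/-!
# Tate classes on products
-/

set_option linter.unusedSectionVars false
set_option autoImplicit false

namespace Pool.Agent.R919.GT

open Matrix Polynomial Module

section ext

variable {K Γ : Type} [Field K] [CharZero K] [Group Γ] {B : Type} [Fintype B] [DecidableEq B]

/-- The extension of scalars to the algebraic closure. -/
noncomputable def ext (ρ : Γ →* Matrix B B K) : Γ →* Matrix B B (AlgebraicClosure K) :=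
  (RingHom.toMonoidHom (algebraMap K (AlgebraicClosure K)).mapMatrix).comp ρ

theorem ext_apply (ρ : Γ →* Matrix B B K) (γ : Γ) :
    ext ρ γ = (ρ γ).map (algebraMap K (AlgebraicClosure K)) := rfl

theorem ext_det (ρ : Γ →* Matrix B B K) (γ : Γ) :
    (ext ρ γ).det = algebraMap K (AlgebraicClosure K) (ρ γ).det := by
  rw [ext_apply, RingHom.map_det]
  rfl

theorem ext_trace (ρ : Γ →* Matrix B B K) (γ : Γ) :
    (ext ρ γ).trace = algebraMap K (AlgebraicClosure K) (ρ γ).trace := by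
  rw [ext_apply, Matrix.trace, Matrix.trace, map_sum]
  rfl

/-- Intertwiners over the algebraic closure. -/
theorem noniso_ext {B' : Type} [Fintype B'] [DecidableEq B'] {ρ : Γ →* Matrix B B K}
    {ρ' : Γ →* Matrix B' B' K} (h : NonIso ρ ρ') (Δ : Subgroup Γ) (hΔ : Δ.FiniteIndex)
    (T : Matrix B' B (AlgebraicClosure K)) (hT : ∀ γ ∈ Δ, T * ext ρ γ = ext ρ' γ * T) : T = 0 := by
  ext a b
  rw [Matrix.zero_apply, ← Module.forall_dual_apply_eq_zero_iff K]
  intro φ
  have h1 := h Δ hΔ (T.map φ) (by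
    intro γ hγ
    have h2 := hT γ hγ
    ext a' b'
    have h3 := congrArg φ (congrFun (congrFun h2 a') b')
    rw [Matrix.mul_apply, Matrix.mul_apply, map_sum, map_sum] at h3
    rw [Matrix.mul_apply, Matrix.mul_apply]
    refine Eq.trans ?_ (h3.trans ?_)
    · refine Finset.sum_congr rfl fun x _ => ?_
      change φ (T a' x) * ρ γ x b' = φ (T a' x * algebraMap K _ (ρ γ x b'))
      rw [mul_comm (T a' x), ← Algebra.smul_def, map_smul, smul_eq_mul, mul_comm]
    · refine Finset.sum_congr rfl fun x _ => ?_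
      change φ (algebraMap K _ (ρ' γ a' x) * T x b') = ρ' γ a' x * φ (T x b')
      rw [← Algebra.smul_def, map_smul, smul_eq_mul])
  exact congrFun (congrFun h1 a) b

end ext

section fam

variable {K Γ J : Type} [Field K] [CharZero K] [Group Γ] [DecidableEq J] {B : J → Type}
  [∀ j, Fintype (B j)] [∀ j, DecidableEq (B j)] {ρ : ∀ j, Γ →* Matrix (B j) (B j) K}
  {χ : Γ →* Kˣ}

theorem IsEll.irr_ext {i : J} (h : IsEll χ (ρ i)) : Irr (fun j => ext (ρ j)) i :=
  Irr.of h.dim fun Δ hΔ v hv => h.irr Δ hΔ v hv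

theorem IsEll.full {i : J} (h : IsEll χ (ρ i)) :
    ∀ y ∈ sl (AlgebraicClosure K) (B i), ∃ z ∈ L' (fun j => ext (ρ j)), z i = y := by
  refine GT.full h.irr_ext (exists_gen h.dim ?_)
  obtain ⟨γ, hγ⟩ := h.ord
  refine ⟨γ, fun n hn h0 => hγ n hn ?_⟩
  rw [ext_trace, ext_det] at h0
  apply (algebraMap K (AlgebraicClosure K)).injective
  rw [map_pow, map_mul, h0, map_ofNat]

theorem pair_ext {i j : J} (hi : IsEll χ (ρ i)) (hj : IsEll χ (ρ j)) (h : NonIso (ρ j) (ρ i)) :
    ∃ x ∈ L' (fun j => ext (ρ j)), x j = 0 ∧ x i ≠ 0 :=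
  pair hi.irr_ext hj.irr_ext hi.full hj.full
    (fun γ => by rw [ext_det, ext_det, hi.det, hj.det])
    (sgn (ρ := fun j => ext (ρ j)) fun Δ hΔ T hT => noniso_ext h Δ hΔ T hT)

variable {κ : Type} [Fintype κ] [DecidableEq κ] (f : κ → J)

theorem gact_ext (i : J) (γ : Γ) (c : (∀ x, B (f x)) → K) :
    cact f i (ext (ρ i) γ) (fun I => algebraMap K (AlgebraicClosure K) (c I)) =
      fun I => algebraMap K (AlgebraicClosure K) (gact ρ f i γ c I) := by
  rw [gact, ← tact_map, cact]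
  congr 2
  funext x
  by_cases h : f x = i
  · subst h
    rw [Pi.mulSingle_eq_same, if_pos rfl]
    rfl
  · rw [Pi.mulSingle_eq_of_ne h, if_neg h]
    rw [Matrix.map_one _ (map_zero _) (map_one _)]

/-- The action on the factors of several colours. -/
def wact (ρ : ∀ j, Γ →* Matrix (B j) (B j) K) (W : Finset J) (γ : Γ) :
    End K ((∀ x, B (f x)) → K) :=
  tact (fun x => if f x ∈ W then ρ (f x) γ else 1)

theorem wact_insert {W : Finset J} {j : J} (hj : j ∉ W) (γ : Γ) :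
    wact f ρ (insert j W) γ = gact ρ f j γ * wact f ρ W γ := by
  rw [wact, wact, gact, ← tact_mul]
  congr 1
  funext x
  by_cases h : f x = j
  · have h' : f x ∉ W := by rw [h]; exact hj
    simp [h, h', hj]
  · simp [h]

theorem wact_smul {W : Finset J} {γ : Γ} {c : (∀ x, B (f x)) → K} (r : J → ℤ)
    (h : ∀ j ∈ W, gact ρ f j γ c = ((χ γ ^ r j : Kˣ) : K) • c) :
    wact f ρ W γ c = ((χ γ ^ (∑ j ∈ W, r j) : Kˣ) : K) • c := by
  induction W using Finset.induction_on with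
  | empty =>
    rw [wact]
    simp only [Finset.notMem_empty, if_false, Finset.sum_empty]
    rw [tact_one, zpow_zero, Units.val_one, one_smul]
    rfl
  | insert j W hj ih =>
    rw [wact_insert f hj, Module.End.mul_apply,
      ih (fun i hi => h i (Finset.mem_insert_of_mem hi)), map_smul,
      h j (Finset.mem_insert_self j W), Finset.sum_insert hj, smul_smul, ← Units.val_mul,
      ← _root_.zpow_add, _root_.add_comm]

theorem wact_image (γ : Γ) :
    wact f ρ (Finset.univ.image f) γ = tact (fun x => ρ (f x) γ) := by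
  rw [wact]
  congr 1
  funext x
  rw [if_pos (Finset.mem_image_of_mem f (Finset.mem_univ x))]

/-- The colours without exceptions. -/
theorem killed_of {m : ℤ} {c : (∀ x, B (f x)) → K} (hc : c ∈ tateClasses ρ χ f m) {i : J}
    (hi : IsEll χ (ρ i))
    (hW : ∀ t ∈ (Finset.univ.image f).erase i, ∃ x ∈ L' (fun j => ext (ρ j)), x t = 0 ∧ x i ≠ 0) :
    Killed f i (fun I => algebraMap K (AlgebraicClosure K) (c I)) := by
  obtain ⟨Δ, hΔ, h⟩ := (mem_tateClasses ρ χ f).1 hc
  intro y hy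
  obtain ⟨z, hz, hzi, hzt⟩ := conc hi.irr_ext hi.full ((Finset.univ.image f).erase i) hW y hy
  have h1 : (fun x => (Pi.single i y : ∀ j, Matrix (B j) (B j) (AlgebraicClosure K)) (f x)) =
      fun x => z (f x) := by
    funext x
    by_cases hx : f x = i
    · subst hx
      rw [Pi.single_eq_same, hzi]
    · rw [Pi.single_eq_of_ne hx, hzt (f x) (Finset.mem_erase.2
        ⟨hx, Finset.mem_image_of_mem f (Finset.mem_univ x)⟩)]
  rw [h1]
  refine act_L' f (fun γ => ?_) hz
  obtain ⟨n, hn, _, hγ⟩ := Subgroup.exists_pow_mem_of_index_ne_zero hΔ.index_ne_zero γ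
  refine ⟨n, hn, algebraMap K (AlgebraicClosure K) ((χ (γ ^ n) ^ m : Kˣ) : K), ?_⟩
  rw [← tact_pow]
  have h2 : (fun x => ext (ρ (f x)) γ ^ n) =
      fun x => (ρ (f x) (γ ^ n)).map (algebraMap K (AlgebraicClosure K)) := by
    funext x
    rw [← map_pow, ext_apply]
  rw [h2, tact_map, h _ hγ]
  funext I
  rw [Pi.smul_apply, Pi.smul_apply, smul_eq_mul, smul_eq_mul, map_mul]

theorem cond_of {m : ℤ} {c : (∀ x, B (f x)) → K} (hc : c ∈ tateClasses ρ χ f m) {i : J}
    (hi : IsEll χ (ρ i))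
    (hW : ∀ t ∈ (Finset.univ.image f).erase i, ∃ x ∈ L' (fun j => ext (ρ j)), x t = 0 ∧ x i ≠ 0)
    (γ : Γ) : gact ρ f i γ c = ((χ γ ^ ((cnt f i / 2 : ℕ) : ℤ) : Kˣ) : K) • c := by
  have h1 := cact_eq hi.dim (killed_of f hc hi hW) (g := ext (ρ i) γ) (by
    rw [ext_det, hi.det]
    exact (_root_.map_ne_zero _).2 (Units.ne_zero _))
  rw [gact_ext, ext_det, hi.det, ← map_pow] at h1
  funext I
  have h2 := congrFun h1 I
  rw [Pi.smul_apply, smul_eq_mul, ← map_mul] at h2
  rw [(algebraMap K (AlgebraicClosure K)).injective h2, Pi.smul_apply, smul_eq_mul, zpow_natCast,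
    Units.val_pow_eq_pow_val]

/-- An exceptional index is linked. -/
theorem linked_of {o i : J} (hi : IsEll χ (ρ i)) (h : Exc (fun j => ext (ρ j)) o i) :
    Linked (ρ o) (ρ i) := by
  refine ⟨(L' (fun j => ext (ρ j))).map (LinearMap.prod (LinearMap.proj o) (LinearMap.proj i)),
    ?_, ?_, ?_, ?_, ?_⟩
  · rintro _ ⟨x, hx, rfl⟩ _ ⟨y, hy, rfl⟩
    exact ⟨x * y - y * x, brk_mem' (L'_le hx) (L'_le hy), rfl⟩
  · rintro γ _ ⟨x, hx, rfl⟩
    exact ⟨cj (fun j => ext (ρ j)) γ x, cj_mem' γ hx, rfl⟩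
  · rintro _ ⟨x, hx, rfl⟩ h0
    exact h x hx h0
  · rintro _ ⟨x, hx, rfl⟩
    exact mem_sl.1 (L'_sl hx)
  · intro y hy
    obtain ⟨z, hz, hzy⟩ := hi.full y (mem_sl.2 hy)
    exact ⟨_, ⟨z, hz, rfl⟩, hzy⟩

/-- The main theorem. -/
theorem main (o : J) (Q : Matrix (B o) (B o) K) (hQu : IsUnit Q)
    (hQ : ∀ γ, ∃ r : K, (ρ o γ)ᵀ * Q * ρ o γ = r • Q)
    (h1 : ∀ j, j ≠ o → IsEll χ (ρ j))
    (h2 : ∀ i j, i ≠ o → j ≠ o → i ≠ j → NonIso (ρ i) (ρ j)) :
    ∃ S : Finset J, o ∉ S ∧ 2 * S.card ≤ Fintype.card (B o) ∧ (∀ i ∈ S, Linked (ρ o) (ρ i)) ∧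
      ∀ (κ : Type) [Fintype κ] [DecidableEq κ] [Nonempty κ] (f : κ → J), (∀ x, f x ∉ S) →
        ∀ m : ℤ, ∃ e : J → ℤ, (∑ j ∈ Finset.univ.image f, e j = m) ∧
          tateClasses ρ χ f m ≤ ∏ j ∈ Finset.univ.image f, tateClassesOf ρ χ f j (e j) := by
  have hpair : ∀ i t, i ≠ o → t ≠ o → i ≠ t → ∃ x ∈ L' (fun j => ext (ρ j)), x t = 0 ∧ x i ≠ 0 :=
    fun i t hi ht hit => pair_ext (h1 i hi) (h1 t ht) (h2 t i ht hi (Ne.symm hit))
  obtain ⟨S, hS1, hS2, hS4, hS3⟩ := exists_finset (ρ := fun j => ext (ρ j)) o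
    (Q := Q.map (algebraMap K (AlgebraicClosure K)))
    (hQu.map (algebraMap K (AlgebraicClosure K)).mapMatrix)
    (by
      intro γ
      obtain ⟨r, hr⟩ := hQ γ
      refine ⟨algebraMap K _ r, ?_⟩
      rw [ext_apply, ← Matrix.transpose_map, ← Matrix.map_mul, ← Matrix.map_mul, hr]
      ext a b
      simp)
    (fun i hi => (h1 i hi).irr_ext) (fun i hi => (h1 i hi).full) hpair
  refine ⟨S, hS1, hS2, fun i hi => linked_of (h1 i fun h => hS1 (h ▸ hi)) (hS4 i hi),
    fun κ _ _ _ f hf m => ?_⟩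
  set W := Finset.univ.image f with hW
  have hWS : ∀ j ∈ W, j ∉ S := by
    intro j hj
    obtain ⟨x, _, rfl⟩ := Finset.mem_image.1 hj
    exact hf x
  -- the special colour
  obtain ⟨j0, hj0, hj0'⟩ : ∃ j0 ∈ W, ∀ j ∈ W, j ≠ j0 → j ≠ o := by
    by_cases ho : o ∈ W
    · exact ⟨o, ho, fun j _ hj => hj⟩
    · have x₀ : κ := Classical.arbitrary κ
      refine ⟨f x₀, Finset.mem_image_of_mem f (Finset.mem_univ x₀), fun j hj _ h => ?_⟩
      rw [h] at hj
      exact ho hj
  have hins : insert j0 (W.erase j0) = W := Finset.insert_erase hj0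
  set r : J → ℤ := fun j => ((cnt f j / 2 : ℕ) : ℤ) with hr
  refine ⟨fun j => if j = j0 then m - ∑ i ∈ W.erase j0, r i else r j, ?_, ?_⟩
  · rw [← hins, Finset.sum_insert (Finset.notMem_erase _ _), if_pos rfl, Finset.erase_insert
      (Finset.notMem_erase _ _), Finset.sum_congr rfl (fun j hj =>
        if_neg (Finset.ne_of_mem_erase hj))]
    ring
  · intro c hc
    have hcond : ∀ i ∈ W, i ≠ o → ∀ γ, gact ρ f i γ c = ((χ γ ^ r i : Kˣ) : K) • c := by
      intro i hi hio γ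
      refine cond_of f hc (h1 i hio) (fun t ht => ?_) γ
      have ht' := Finset.mem_erase.1 ht
      by_cases hto : t = o
      · subst hto
        exact hS3 i hio (hWS i hi)
      · exact hpair i t hio hto (Ne.symm ht'.1)
    refine mem_prod ρ χ f _ W c (fun I I' h => ?_) (fun j hj => ?_)
    · exact congrArg c (funext fun x => h x (Finset.mem_image_of_mem f (Finset.mem_univ x)))
    · by_cases hjj : j = j0
      · subst hjj
        obtain ⟨Δ, hΔ, h⟩ := (mem_tateClasses ρ χ f).1 hc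
        refine ⟨Δ, hΔ, fun γ hγ => ?_⟩
        rw [if_pos rfl]
        have h3 := h γ hγ
        rw [← wact_image, ← hW, ← hins, wact_insert f (Finset.notMem_erase _ _),
          Module.End.mul_apply, wact_smul f r (fun i hi => hcond i (Finset.mem_of_mem_erase hi)
            (hj0' i (Finset.mem_of_mem_erase hi) (Finset.ne_of_mem_erase hi)) γ), map_smul] at h3
        rw [_root_.zpow_sub, Units.val_mul, mul_smul, smul_comm, ← h3, smul_smul, ← Units.val_mul,
          inv_mul_cancel, Units.val_one, one_smul]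
      · rw [if_neg hjj]
        exact ⟨⊤, inferInstance, fun γ _ => hcond j hj (hj0' j hj hjj) γ⟩

end fam

end Pool.Agent.R919.GT
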